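import Pool.Agent.Q123.CW.Fin

/-!
The final form of the singularity theorem.
-/

set_option autoImplicit false

open MeasureTheory Filter Topology Set
open scoped ENNReal

namespace Q123.CW

open Q123.CV

lemma erg_one {S : Set ℕ} {μ : Measure T} (h : Erg S μ) : Erg (insert 1 S) μ := by
  refine ⟨⟨1, mem_insert _ _⟩, ?_, ?_, ?_⟩
  · rintro m (rfl | hm) n (rfl | hn)
    · exact Or.inl rfl
    · right; rwa [_root_.one_mul]
    · right; rwa [mul_one]
    · exact Or.inr (h.mul m hm n hn)
  · rintro n (rfl | hn)
    · simp only [one_smul]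
      exact MeasurePreserving.id μ
    · exact h.inv n hn
  · intro A hA hinv
    exact h.erg A hA fun n hn => hinv n (Or.inr hn)

lemma erg_neg {S : Set ℕ} {μ : Measure T} (h : Erg S μ) : Erg S (μ.map fun x => -x) := by
  refine ⟨h.ne, h.mul, fun n hn => ?_, fun A hA hinv => ?_⟩
  · refine ⟨meas_smul n, ?_⟩
    rw [Measure.map_map (meas_smul n) measurable_neg]
    conv_rhs => rw [← (h.inv n hn).map_eq, Measure.map_map measurable_neg (meas_smul n)]
    congr 1
    ext x
    exact smul_neg n x
  · rw [Measure.map_apply measurable_neg hA]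
    refine h.erg _ (measurable_neg hA) fun n hn => ?_
    ext x
    have h1 : (n • (-x) ∈ A) ↔ (-x ∈ A) := by
      have h2 := hinv n hn
      constructor
      · intro h3
        rw [← h2]; exact h3
      · intro h3
        rw [← h2] at h3; exact h3
    simp only [mem_preimage]
    rw [← smul_neg]
    exact h1

theorem singular {S : Set ℕ} {μ ν : Measure T} [IsProbabilityMeasure μ] [IsProbabilityMeasure ν]
    (h : Erg S μ) {p : ℕ} (hp : 2 ≤ p) (hpS : p ∈ S)
    (hν : ∀ n ∈ S, MeasurePreserving (fun x : T => n • x) ν ν) (hna : ∀ y, ν {y} = 0)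
    (hne : μ ≠ volume) :
    (Measure.conv μ ν) ⟂ₘ μ ∧ (Measure.conv (μ.map fun x => -x) ν) ⟂ₘ μ := by
  have h0S : 0 ∉ insert 1 S := by
    rintro (h1 | h1)
    · exact absurd h1 (by norm_num)
    · have h2 := hν 0 h1
      have h3 := h2.measure_preimage (measurableSet_singleton (0 : T)).nullMeasurableSet
      have h4 : (fun x : T => (0 : ℕ) • x) ⁻¹' {0} = univ := by
        ext x; simp
      rw [h4, measure_univ, hna] at h3
      exact one_ne_zero h3
  have hν' : ∀ n ∈ insert 1 S, MeasurePreserving (fun x : T => n • x) ν ν := by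
    rintro n (rfl | hn)
    · simp only [one_smul]
      exact MeasurePreserving.id ν
    · exact hν n hn
  constructor
  · by_contra hns
    obtain ⟨y, hy⟩ := main (erg_one h) (erg_one h) (Or.inl rfl) hν' hp (Or.inr hpS) h0S
      (Or.inl rfl) hns hne
    exact hy (hna y)
  · by_contra hns
    have hpm : IsProbabilityMeasure (μ.map fun x => -x) :=
      Measure.isProbabilityMeasure_map measurable_neg.aemeasurable
    obtain ⟨y, hy⟩ := main (erg_one (erg_neg h)) (erg_one h) (Or.inr rfl) hν' hp (Or.inr hpS) h0S
      (Or.inl rfl) hns hne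
    exact hy (hna y)

end Q123.CW
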