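import Pool.Agent.Q123.CW.Uni

/-!
The slices of an invariant set form a totally bounded family.
-/

set_option autoImplicit false
set_option linter.unusedSectionVars false

open MeasureTheory Filter Topology Set
open scoped ENNReal ComplexConjugate

namespace Q123.CW

open Q123.CV

variable {S : Set ℕ} {μ' μ ν : Measure T} [IsProbabilityMeasure μ'] [IsProbabilityMeasure μ]
  [IsProbabilityMeasure ν] {A : Set (T × T)} {c : ℝ≥0∞}

/-- the distance of two slices -/
noncomputable def rho (μ' : Measure T) (A : Set (T × T)) (y z : T) : ℝ :=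
  ∫ x, ‖ind A (x, y) - ind A (x, z)‖ ∂μ'

lemma ind_slice_int (hA : MeasurableSet A) (y : T) : Integrable (fun x => ind A (x, y)) μ' :=
  int_bdd (ind_slice hA y) (C := 1) fun x => by
    rw [Real.norm_of_nonneg (ind_nonneg _)]; exact ind_le_one _

lemma rho_dist (hA : MeasurableSet A) (y z : T) :
    rho μ' A y z = dist ((ind_slice_int (μ' := μ') hA y).toL1 _)
      ((ind_slice_int (μ' := μ') hA z).toL1 _) := by
  rw [dist_eq_norm, ← Integrable.toL1_sub, L1.norm_of_fun_eq_integral_norm]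
  rfl

lemma rho_nonneg (y z : T) : 0 ≤ rho μ' A y z := integral_nonneg fun _ => norm_nonneg _

lemma rho_comm (y z : T) : rho μ' A y z = rho μ' A z y := by
  unfold rho
  congr 1
  ext x
  rw [norm_sub_rev]

lemma rho_self (y : T) : rho μ' A y y = 0 := by
  unfold rho
  simp

lemma rho_tri (hA : MeasurableSet A) (y z w : T) :
    rho μ' A y w ≤ rho μ' A y z + rho μ' A z w := by
  rw [rho_dist hA, rho_dist hA, rho_dist hA]
  exact dist_triangle _ _ _

lemma rho_meas (hA : MeasurableSet A) : Measurable fun w : T × T => rho μ' A w.1 w.2 := by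
  have h1 : StronglyMeasurable fun q : T × (T × T) =>
      ‖ind A (q.1, q.2.1) - ind A (q.1, q.2.2)‖ := by
    refine Measurable.stronglyMeasurable ?_
    refine (Measurable.sub ?_ ?_).norm
    · exact (ind_meas hA).comp (measurable_fst.prodMk (measurable_fst.comp measurable_snd))
    · exact (ind_meas hA).comp (measurable_fst.prodMk (measurable_snd.comp measurable_snd))
  exact (StronglyMeasurable.integral_prod_left' (μ := μ') h1).measurable

lemma ae_swap {q : T × T → Prop} (h : ∀ᵐ z ∂(μ'.prod ν), q z) : ∀ᵐ y ∂ν, ∀ᵐ x ∂μ', q (x, y) := by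
  have h1 : ∀ᵐ w ∂(ν.prod μ'), q w.swap :=
    (Measure.measurePreserving_swap (μ := ν) (ν := μ')).quasiMeasurePreserving.ae h
  exact Measure.ae_ae_of_ae_prod h1

/-- the slices at `y` and at `t • y` correspond -/
lemma slice_smul (d : Data S μ' μ ν A c) {t : ℕ} (ht : t ∈ S) :
    ∀ᵐ y ∂ν, ∀ᵐ x ∂μ', ind A (t • x, t • y) = ind A (x, y) := by
  refine ae_swap (q := fun z => ind A (t • z.1, t • z.2) = ind A z) ?_
  filter_upwards [d.Ainv t ht] with z hz
  unfold ind
  by_cases h : z ∈ A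
  · rw [indicator_of_mem h, indicator_of_mem (hz.2 h)]
  · rw [indicator_of_notMem h, indicator_of_notMem fun h1 => h (hz.1 h1)]

lemma rho_smul (d : Data S μ' μ ν A c) {t : ℕ} (ht : t ∈ S) {y z : T}
    (hy : ∀ᵐ x ∂μ', ind A (t • x, t • y) = ind A (x, y))
    (hz : ∀ᵐ x ∂μ', ind A (t • x, t • z) = ind A (x, z)) :
    rho μ' A (t • y) (t • z) = rho μ' A y z := by
  have hm := d.erg'.inv t ht
  have hfm : Measurable fun x => ‖ind A (x, t • y) - ind A (x, t • z)‖ :=
    ((ind_slice d.meas _).sub (ind_slice d.meas _)).norm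
  have h1 : rho μ' A (t • y) (t • z) =
      ∫ x, ‖ind A (t • x, t • y) - ind A (t • x, t • z)‖ ∂μ' := by
    unfold rho
    conv_lhs => rw [← hm.map_eq]
    exact integral_map hm.measurable.aemeasurable hfm.aestronglyMeasurable
  rw [h1]
  unfold rho
  refine integral_congr_ae ?_
  filter_upwards [hy, hz] with x h1 h2
  rw [h1, h2]

/-- the mass of a ball -/
noncomputable def ball (μ' ν : Measure T) (A : Set (T × T)) (ε : ℝ) (y : T) : ℝ≥0∞ :=
  ν {z | rho μ' A y z < ε}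

lemma ball_set_meas (hA : MeasurableSet A) (ε : ℝ) (y : T) :
    MeasurableSet {z | rho μ' A y z < ε} :=
  measurableSet_lt ((rho_meas hA).comp measurable_prodMk_left) measurable_const

lemma ball_meas (hA : MeasurableSet A) (ε : ℝ) : Measurable (ball μ' ν A ε) := by
  have h1 : MeasurableSet {w : T × T | rho μ' A w.1 w.2 < ε} :=
    measurableSet_lt (rho_meas hA) measurable_const
  exact measurable_measure_prodMk_left h1

lemma ball_smul (d : Data S μ' μ ν A c) {t : ℕ} (ht : t ∈ S) (ε : ℝ) :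
    ∀ᵐ y ∂ν, ball μ' ν A ε (t • y) = ball μ' ν A ε y := by
  filter_upwards [slice_smul d ht] with y hy
  unfold ball
  rw [← (d.inv t ht).measure_preimage (ball_set_meas d.meas ε _).nullMeasurableSet]
  refine measure_congr ?_
  filter_upwards [slice_smul d ht] with z hz
  refine propext ?_
  change rho μ' A (t • y) (t • z) < ε ↔ rho μ' A y z < ε
  rw [rho_smul d ht hy hz]

lemma sep_space (μ : Measure T) [IsProbabilityMeasure μ] :
    TopologicalSpace.SeparableSpace (Lp ℝ 1 μ) := by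
  have : Fact ((1 : ℝ≥0∞) ≠ ∞) := ⟨ENNReal.one_ne_top⟩
  have h0 : IsSeparable μ := isSeparable_of_sigmaFinite μ
  have h := Lp.SecondCountableTopology (μ := μ) (E := ℝ) (p := 1)
  infer_instance

lemma ball_pos (hA : MeasurableSet A) {ε : ℝ} (hε : 0 < ε) : ∀ᵐ y ∂ν, ball μ' ν A ε y ≠ 0 := by
  set F : T → Lp ℝ 1 μ' := fun y => (ind_slice_int (μ' := μ') hA y).toL1 _ with hF
  have hdist : ∀ y z, rho μ' A y z = dist (F y) (F z) := fun y z => rho_dist hA y z
  rw [ae_iff]
  simp only [not_not, ne_eq]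
  have hsep := sep_space μ'
  set D := TopologicalSpace.denseSeq (Lp ℝ 1 μ') with hD
  have hcov : {y | ball μ' ν A ε y = 0} ⊆
      ⋃ i, {y | ball μ' ν A ε y = 0 ∧ dist (F y) (D i) < ε / 2} := by
    intro y hy
    obtain ⟨i, hi⟩ := (TopologicalSpace.denseRange_denseSeq (Lp ℝ 1 μ')).exists_dist_lt (F y)
      (half_pos hε)
    exact mem_iUnion.2 ⟨i, hy, hi⟩
  refine measure_mono_null hcov (measure_iUnion_null fun i => ?_)
  rcases Set.eq_empty_or_nonempty {y | ball μ' ν A ε y = 0 ∧ dist (F y) (D i) < ε / 2} with h1 | h1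
  · rw [h1]; exact measure_empty
  · obtain ⟨y, hy1, hy2⟩ := h1
    refine measure_mono_null ?_ hy1
    rintro z ⟨-, hz⟩
    change rho μ' A y z < ε
    rw [hdist]
    calc dist (F y) (F z) ≤ dist (F y) (D i) + dist (F z) (D i) := dist_triangle_right _ _ _
      _ < ε := by linarith

/-- separated points in the set where the balls are large -/
lemma sep_card (hA : MeasurableSet A) {ε : ℝ} {β : ℝ≥0∞} (Y : Finset T)
    (hY : ∀ y ∈ Y, β ≤ ball μ' ν A (ε / 2) y)
    (hsep : ∀ y ∈ Y, ∀ z ∈ Y, y ≠ z → ε ≤ rho μ' A y z) : (Y.card : ℝ≥0∞) * β ≤ 1 := by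
  have h1 : ν (⋃ y ∈ Y, {z | rho μ' A y z < ε / 2}) = ∑ y ∈ Y, ν {z | rho μ' A y z < ε / 2} := by
    refine measure_biUnion_finset ?_ fun y _ => ball_set_meas hA _ _
    intro y hy z hz hyz
    rw [Function.onFun, Set.disjoint_left]
    intro w hw1 hw2
    have h2 := hsep y hy z hz hyz
    have h3 := rho_tri (μ' := μ') hA y w z
    have h4 : rho μ' A y w < ε / 2 := hw1
    have h5 : rho μ' A z w < ε / 2 := hw2
    rw [rho_comm w z] at h3
    linarith
  calc (Y.card : ℝ≥0∞) * β = ∑ y ∈ Y, β := by rw [Finset.sum_const, nsmul_eq_mul]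
    _ ≤ ∑ y ∈ Y, ν {z | rho μ' A y z < ε / 2} := Finset.sum_le_sum hY
    _ = _ := h1.symm
    _ ≤ 1 := prob_le_one

/-- inside an invariant set of positive measure there is one with a finite net of slices -/
theorem net (d : Data S μ' μ ν A c) {Z : Set T} (hZ : MeasurableSet Z) (hZ0 : ν Z ≠ 0)
    (hinv : ∀ n ∈ S, ∀ᵐ y ∂ν, (n • y ∈ Z ↔ y ∈ Z)) {ε : ℝ} (hε : 0 < ε) :
    ∃ Z' : Set T, Z' ⊆ Z ∧ MeasurableSet Z' ∧ ν Z' ≠ 0 ∧
      (∀ n ∈ S, ∀ᵐ y ∂ν, (n • y ∈ Z' ↔ y ∈ Z')) ∧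
      ∃ Y : Finset T, (∀ y ∈ Y, y ∈ Z') ∧ ∀ y ∈ Z', ∃ z ∈ Y, rho μ' A y z < ε := by
  classical
  -- choose the lower bound for the mass of the balls
  have hex : ∃ k : ℕ, ν (Z ∩ {y | ((k : ℝ≥0∞) + 1)⁻¹ ≤ ball μ' ν A (ε / 2) y}) ≠ 0 := by
    by_contra hcon
    push Not at hcon
    apply hZ0
    have h1 : Z ⊆ (⋃ k : ℕ, Z ∩ {y | ((k : ℝ≥0∞) + 1)⁻¹ ≤ ball μ' ν A (ε / 2) y}) ∪
        {y | ¬ ball μ' ν A (ε / 2) y ≠ 0} := by
      intro y hy
      by_cases h2 : ball μ' ν A (ε / 2) y = 0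
      · exact Or.inr (by simpa using h2)
      · left
        obtain ⟨k, hk⟩ := ENNReal.exists_inv_nat_lt h2
        refine mem_iUnion.2 ⟨k, hy, ?_⟩
        refine le_trans ?_ hk.le
        exact ENNReal.inv_le_inv.2 le_self_add
    refine measure_mono_null h1 (measure_union_null (measure_iUnion_null hcon) ?_)
    exact ae_iff.1 (ball_pos d.meas (half_pos hε))
  obtain ⟨k, hk⟩ := hex
  set β : ℝ≥0∞ := ((k : ℝ≥0∞) + 1)⁻¹ with hβ
  set Z' : Set T := Z ∩ {y | β ≤ ball μ' ν A (ε / 2) y} with hZ'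
  have hZ'm : MeasurableSet Z' :=
    hZ.inter (measurableSet_le measurable_const (ball_meas d.meas _))
  refine ⟨Z', inter_subset_left, hZ'm, hk, fun n hn => ?_, ?_⟩
  · filter_upwards [hinv n hn, ball_smul d hn (ε / 2)] with y h1 h2
    rw [hZ', mem_inter_iff, mem_inter_iff, h1]
    change _ ∧ β ≤ ball μ' ν A (ε / 2) (n • y) ↔ _ ∧ β ≤ ball μ' ν A (ε / 2) y
    rw [h2]
  · by_contra hcon
    push Not at hcon
    have hall : ∀ m : ℕ, ∃ Y : Finset T, Y.card = m ∧ (∀ y ∈ Y, y ∈ Z') ∧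
        ∀ y ∈ Y, ∀ z ∈ Y, y ≠ z → ε ≤ rho μ' A y z := by
      intro m
      induction m with
      | zero => exact ⟨∅, rfl, by simp, by simp⟩
      | succ m ih =>
        obtain ⟨Y, hY1, hY2, hY3⟩ := ih
        obtain ⟨y, hy1, hy2⟩ := hcon Y hY2
        have hyY : y ∉ Y := fun h => by
          have := hy2 y h
          rw [rho_self] at this
          linarith
        refine ⟨insert y Y, by rw [Finset.card_insert_of_notMem hyY, hY1], ?_, ?_⟩
        · intro z hz
          rcases Finset.mem_insert.1 hz with rfl | hz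
          · exact hy1
          · exact hY2 z hz
        · intro z hz w hw hzw
          rcases Finset.mem_insert.1 hz with h1 | h1
          · rcases Finset.mem_insert.1 hw with h2 | h2
            · exact absurd (h1.trans h2.symm) hzw
            · rw [h1]; exact hy2 w h2
          · rcases Finset.mem_insert.1 hw with h2 | h2
            · rw [h2, rho_comm]; exact hy2 z h1
            · exact hY3 z h1 w h2 hzw
    obtain ⟨Y, hY1, hY2, hY3⟩ := hall (k + 2)
    have h1 := sep_card (ν := ν) d.meas Y (β := β) (fun y hy => (hY2 y hy).2) hY3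
    rw [hY1, hβ] at h1
    have h2 : ((k + 2 : ℕ) : ℝ≥0∞) ≤ ((k + 1 : ℕ) : ℝ≥0∞) := by
      have h3 : ((k : ℝ≥0∞) + 1) ≠ 0 := by simp
      have h4 : ((k : ℝ≥0∞) + 1) ≠ ∞ :=
        ENNReal.add_ne_top.2 ⟨ENNReal.natCast_ne_top k, ENNReal.one_ne_top⟩
      calc ((k + 2 : ℕ) : ℝ≥0∞) = ((k + 2 : ℕ) : ℝ≥0∞) * (((k : ℝ≥0∞) + 1)⁻¹ * ((k : ℝ≥0∞) + 1)) := by
            rw [ENNReal.inv_mul_cancel h3 h4, mul_one]
        _ = ((k + 2 : ℕ) : ℝ≥0∞) * ((k : ℝ≥0∞) + 1)⁻¹ * ((k : ℝ≥0∞) + 1) := by rw [mul_assoc]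
        _ ≤ 1 * ((k : ℝ≥0∞) + 1) := by gcongr
        _ = ((k + 1 : ℕ) : ℝ≥0∞) := by push_cast; ring
    have h5 : k + 2 ≤ k + 1 := by exact_mod_cast h2
    omega

end Q123.CW
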