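import Pool.Agent.Q123.CW.Mass

/-!
An ergodic measure is singular to its convolution with every atomless invariant measure.
-/

set_option autoImplicit false
set_option linter.unusedSectionVars false

open MeasureTheory Filter Topology Set
open scoped ENNReal ComplexConjugate

namespace Q123.CW

open Q123.CV

variable {S : Set ℕ} {μ' μ ν : Measure T} [IsProbabilityMeasure μ'] [IsProbabilityMeasure μ]
  [IsProbabilityMeasure ν] {A : Set (T × T)} {c : ℝ≥0∞} {U : Ultrafilter ℕ} {p : ℕ}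
  {θ' θ φ : ℤ → T → ℂ}

/-- the points at which some multiple has large mass -/
def Zg (S : Set ℕ) (μ' : Measure T) (A : Set (T × T)) (θ' : ℤ → T → ℂ) (N : ℤ) (g : ℝ) : Set T :=
  ⋃ t ∈ S, {y | g < G μ' A θ' (t * N) y}

lemma Zg_meas (hA : MeasurableSet A) (h' : WLs μ' U p θ') (N : ℤ) (g : ℝ) :
    MeasurableSet (Zg S μ' A θ' N g) :=
  MeasurableSet.biUnion (to_countable S) fun _ _ =>
    measurableSet_lt measurable_const (G_meas hA h' _)

lemma Zg_inv (d : Data S μ' μ ν A c) (h' : WLs μ' U p θ') (N : ℤ) (g : ℝ) :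
    ∀ n ∈ S, ∀ᵐ y ∂ν, (n • y ∈ Zg S μ' A θ' N g ↔ y ∈ Zg S μ' A θ' N g) := by
  intro n hn
  refine inv_of_sup (d.inv n hn) (Zg_meas d.meas h' N g) ?_
  have h1 : ∀ᵐ y ∂ν, ∀ t ∈ S, G μ' A θ' (t * N) (n • y) = G μ' A θ' (n * (t * N)) y :=
    (ae_ball_iff (to_countable S)).2 fun t _ => G_smul d h' hn _
  filter_upwards [h1] with y hy hmem
  simp only [Zg, mem_iUnion, mem_ofPred_eq, exists_prop] at hmem ⊢
  obtain ⟨t, ht, hlt⟩ := hmem
  rw [hy t ht] at hlt
  refine ⟨n * t, d.erg.mul n hn t ht, ?_⟩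
  push_cast
  rw [mul_assoc]
  exact hlt

lemma Zg_one (d : Data S μ' μ ν A c) (ht : Twin μ' μ) (h' : WLs μ' U p θ') (h : WLs μ U p θ)
    (hφ : WLs ν U p φ) (N : ℤ) {g : ℝ} (hg : 0 ≤ g) :
    ∀ᵐ y ∂ν, y ∈ Zg S μ' A θ' N g → y ∈ one φ N := by
  have h1 : ∀ᵐ y ∂ν, ∀ t ∈ S, G μ' A θ' (t * N) y ≠ 0 → y ∈ one φ (t * N) :=
    (ae_ball_iff (to_countable S)).2 fun t _ => G_one d ht h' h hφ _
  have h2 : ∀ᵐ y ∂ν, ∀ t ∈ S, (y ∈ one φ ((t : ℤ) * N) ↔ y ∈ one φ N) :=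
    (ae_ball_iff (to_countable S)).2 fun t hts => hφ.one_mul (d.inv t hts) N
  filter_upwards [h1, h2] with y h3 h4 hy
  simp only [Zg, mem_iUnion, mem_ofPred_eq, exists_prop] at hy
  obtain ⟨t, hts, hlt⟩ := hy
  exact (h4 t hts).1 (h3 t hts (by linarith))

/-- the pointwise comparison of powers -/
lemma pow_compare {z : ℂ} (hz : ‖z‖ = 1) {t M : ℕ} (htM : t ∣ M) (hM : 0 < M) :
    ‖1 - z ^ M‖ ≤ M * ‖1 - z ^ t‖ := by
  obtain ⟨r, rfl⟩ := htM
  rw [pow_mul]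
  have h1 : ‖z ^ t‖ = 1 := by rw [norm_pow, hz, one_pow]
  refine (pow_close h1 r).trans ?_
  refine mul_le_mul_of_nonneg_right ?_ (norm_nonneg _)
  have : r ≤ t * r := Nat.le_mul_of_pos_left r (Nat.pos_of_mul_pos_right hM)
  exact_mod_cast this

/-- the mean square distance vanishes -/
theorem sq_zero (d : Data S μ' μ ν A c) (htw : Twin μ' μ) (h' : WLs μ' U p θ') (h : WLs μ U p θ)
    (hφ : WLs ν U p φ) (hp : 2 ≤ p) (hpS : p ∈ S) (h0S : 0 ∉ S) (h1S : 1 ∈ S) {N : ℤ}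
    (hN : 0 < ∫ x, ‖θ N x‖ ^ 2 ∂μ) :
    ∃ Z : Set T, MeasurableSet Z ∧ ν Z ≠ 0 ∧
      ∀ᶠ m in (U : Filter ℕ), ∀ᵐ y ∂ν, y ∈ Z → (y ∈ one φ N ∧ quo φ p N m y = 1) := by
  classical
  have hcr : 0 < c.toReal := ENNReal.toReal_pos d.c0 (ne_top_of_le_ne_top ENNReal.one_ne_top d.c1)
  have htot := G_total d htw h' h N
  set I := ∫ y, G μ' A θ' N y ∂ν with hI
  have hI0 : 0 < I := by rw [htot]; positivity
  set g : ℝ := I / 2 with hg
  have hg0 : 0 < g := by positivity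
  have hGb : ∀ (n : ℤ) (y : T), G μ' A θ' n y ≤ 1 := fun n y => by
    have h1 := G_lip (U := U) (p := p) d.meas h' n y y
    unfold G
    refine (integral_mono (G_int d.meas h' n y) (integrable_const 1) fun x => ?_).trans ?_
    · exact mul_le_one₀ (ind_le_one _) (by positivity) (sq_le h' n x)
    · simp
  have hGi : ∀ n : ℤ, Integrable (G μ' A θ' n) ν := fun n =>
    int_bdd (G_meas d.meas h' n) (C := 1) fun y => by
      rw [Real.norm_of_nonneg (G_nonneg n y)]; exact hGb n y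
  -- the first set
  have hZg0 : ν (Zg S μ' A θ' N g) ≠ 0 := by
    intro hcon
    have h1 : ∀ᵐ y ∂ν, y ∉ Zg S μ' A θ' N g := measure_eq_zero_iff_ae_notMem.1 hcon
    have h2 : I ≤ ∫ _, g ∂ν := by
      refine integral_mono_ae (hGi N) (integrable_const g) ?_
      filter_upwards [h1] with y hy
      by_contra h3
      apply hy
      simp only [Zg, mem_iUnion, mem_ofPred_eq, exists_prop]
      exact ⟨1, h1S, by simpa using h3⟩
    rw [integral_const] at h2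
    simp at h2
    linarith
  obtain ⟨Z1, hZ1sub, hZ1m, hZ10, hZ1inv, Y1, hY1, hnet1⟩ :=
    net d (Zg_meas d.meas h' N g) hZg0 (Zg_inv d h' N g) (half_pos hg0)
  have hch : ∀ z : T, z ∈ Zg S μ' A θ' N g → ∃ t : ℕ, t ∈ S ∧ g < G μ' A θ' (t * N) z := by
    intro z hz
    simp only [Zg, mem_iUnion, mem_ofPred_eq, exists_prop] at hz
    exact hz
  choose! τ hτS hτ using hch
  set S0 : Finset ℕ := Y1.image τ with hS0
  have hS0S : ∀ t ∈ S0, t ∈ S := by
    intro t ht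
    obtain ⟨z, hz, rfl⟩ := Finset.mem_image.1 ht
    exact hτS z (hZ1sub (hY1 z hz))
  have hbig : ∀ y ∈ Z1, ∃ t ∈ S0, g / 2 ≤ G μ' A θ' (t * N) y := by
    intro y hy
    obtain ⟨z, hz, hyz⟩ := hnet1 y hy
    refine ⟨τ z, Finset.mem_image_of_mem τ hz, ?_⟩
    have h1 := hτ z (hZ1sub (hY1 z hz))
    have h2 := G_lip (U := U) (p := p) d.meas h' (τ z * N) y z
    have h3 := abs_le.1 (h2.trans hyz.le)
    linarith
  set M : ℕ := ∏ t ∈ S0, t with hM
  have hMS : M ∈ S := by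
    rw [hM]
    refine Finset.prod_induction _ (fun t => t ∈ S) (fun a b ha hb => d.erg.mul a ha b hb) h1S ?_
    exact hS0S
  have hM0 : 0 < M := Nat.pos_of_ne_zero fun h1 => h0S (h1 ▸ hMS)
  have hMR : (0 : ℝ) < M := by exact_mod_cast hM0
  have hdvd : ∀ t ∈ S0, t ∣ M := fun t ht => Finset.dvd_prod_of_mem _ ht
  have hpR : (0 : ℝ) < p := by
    have : 0 < p := by omega
    exact_mod_cast this
  -- the second set
  set K : ℝ := 12 * M ^ 3 * p * (S0.card + 1) with hK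
  have hK0 : 0 < K := by positivity
  set ε : ℝ := g / K with hε
  have hε0 : 0 < ε := by positivity
  obtain ⟨Z2, hZ2sub, hZ2m, hZ20, hZ2inv, Y2, hY2, hnet2⟩ := net d hZ1m hZ10 hZ1inv hε0
  refine ⟨Z2, hZ2m, hZ20, ?_⟩
  have hone : ∀ᵐ y ∂ν, y ∈ Z2 → y ∈ one φ N := by
    filter_upwards [Zg_one d htw h' h hφ N hg0.le] with y hy hy2
    exact hy (hZ1sub (hZ2sub hy2))
  have hev : ∀ᶠ m in (U : Filter ℕ), ∀ z ∈ Y2, ∀ t ∈ S0,
      ‖Gm μ' A θ' p (t * N) m z - (G μ' A θ' (t * N) z : ℂ)‖ < ε := by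
    rw [Filter.eventually_all_finset]
    intro z _
    rw [Filter.eventually_all_finset]
    intro t _
    have h1 := (Metric.tendsto_nhds.1 (Gm_tendsto (p := p) d.meas h' (t * N) z)) ε hε0
    filter_upwards [h1] with m hm
    rwa [dist_eq_norm] at hm
  filter_upwards [hev] with m hm
  have hclose : ∀ y ∈ Z2, ∀ t ∈ S0,
      ‖Gm μ' A θ' p (t * N) m y - (G μ' A θ' (t * N) y : ℂ)‖ ≤ 3 * ε := by
    intro y hy t ht
    obtain ⟨z, hz, hyz⟩ := hnet2 y hy
    have h1 := hm z hz t ht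
    have h2 := (Gm_lip d.meas h' (t * N) m y z).trans hyz.le
    have h3 := (G_lip (U := U) (p := p) d.meas h' (t * N) z y)
    rw [rho_comm] at h3
    have h4 := h3.trans hyz.le
    have h5 : Gm μ' A θ' p (t * N) m y - (G μ' A θ' (t * N) y : ℂ) =
        (Gm μ' A θ' p (t * N) m y - Gm μ' A θ' p (t * N) m z) +
        (Gm μ' A θ' p (t * N) m z - (G μ' A θ' (t * N) z : ℂ)) +
        ((G μ' A θ' (t * N) z - G μ' A θ' (t * N) y : ℝ) : ℂ) := by
      push_cast; ring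
    rw [h5]
    refine (norm_add_le _ _).trans ?_
    have h6 := norm_add_le (Gm μ' A θ' p (t * N) m y - Gm μ' A θ' p (t * N) m z)
      (Gm μ' A θ' p (t * N) m z - (G μ' A θ' (t * N) z : ℂ))
    rw [Complex.norm_real, Real.norm_eq_abs]
    linarith
  -- the quantity
  set Q := quo φ p N m with hQ
  have hQm : Measurable Q := hφ.quo_meas N m
  have hQ1 : ∀ y, ‖Q y‖ ≤ 1 := hφ.quo_le N m
  set κ := ν.restrict Z2 with hκ
  have hQpow : ∀ t : ℕ, ∀ y, ‖1 - Q y ^ t‖ ≤ 2 := fun t y => by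
    refine (norm_sub_le _ _).trans ?_
    rw [norm_one, norm_pow]
    have := pow_le_one₀ (n := t) (norm_nonneg _) (hQ1 y)
    linarith
  have hdm : ∀ t : ℕ, Measurable fun y => ‖1 - Q y ^ t‖ := fun t =>
    (measurable_const.sub (hQm.pow_const t)).norm
  have hdi : ∀ t : ℕ, Integrable (fun y => ‖1 - Q y ^ t‖) κ := fun t =>
    int_bdd (hdm t) (C := 2) fun y => by rw [norm_norm]; exact hQpow t y
  have hdi2 : ∀ t : ℕ, Integrable (fun y => ‖1 - Q y ^ t‖ ^ 2) κ := fun t =>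
    int_bdd ((hdm t).pow_const 2) (C := 4) fun y => by
      rw [Real.norm_of_nonneg (by positivity)]
      nlinarith [hQpow t y, norm_nonneg (1 - Q y ^ t)]
  have hdi3 : ∀ t : ℕ, ∀ n : ℤ, Integrable (fun y => ‖1 - Q y ^ t‖ ^ 2 * G μ' A θ' n y) κ :=
    fun t n => int_bdd (((hdm t).pow_const 2).mul (G_meas d.meas h' n)) (C := 4) fun y => by
      rw [Real.norm_of_nonneg (mul_nonneg (by positivity) (G_nonneg n y))]
      have h1 : ‖1 - Q y ^ t‖ ^ 2 ≤ 4 := by nlinarith [hQpow t y, norm_nonneg (1 - Q y ^ t)]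
      nlinarith [hGb n y, G_nonneg (μ' := μ') (A := A) (θ' := θ') n y]
  set q : ℝ := ∫ y, ‖1 - Q y‖ ^ 2 ∂κ with hq
  have hq0 : 0 ≤ q := integral_nonneg fun y => by positivity
  -- the gap
  have hgap : ∫ y, ‖1 - Q y‖ ∂κ ≤ p / 2 * q := by
    refine gap_fun hp (mp_restrict (d.inv p hpS) hZ2m (hZ2inv p hpS)) hQm hQ1 ?_
    rw [ae_restrict_iff' hZ2m]
    filter_upwards [hone, hφ.quo_smul (d.inv p hpS) N m] with y h1 h2 hy
    exact ⟨quo_norm N m (h1 hy), h2 (h1 hy)⟩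
  have hgap2 : ∀ t ∈ S0, ∫ y, ‖1 - Q y ^ t‖ ∂κ ≤ M * (p / 2 * q) := by
    intro t ht
    have h1 : ∫ y, ‖1 - Q y ^ t‖ ∂κ ≤ ∫ y, (M : ℝ) * ‖1 - Q y‖ ∂κ := by
      have hi : Integrable (fun y => ‖1 - Q y‖) κ := by simpa using hdi 1
      refine integral_mono_ae (hdi t) (hi.const_mul _) ?_
      have h2 : ∀ᵐ y ∂κ, ‖Q y‖ = 1 := by
        rw [hκ, ae_restrict_iff' hZ2m]
        filter_upwards [hone] with y h1 hy
        exact quo_norm N m (h1 hy)
      filter_upwards [h2] with y hy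
      refine (pow_close hy t).trans ?_
      refine mul_le_mul_of_nonneg_right ?_ (norm_nonneg _)
      exact_mod_cast Nat.le_of_dvd hM0 (hdvd t ht)
    rw [integral_const_mul] at h1
    exact h1.trans (mul_le_mul_of_nonneg_left hgap hMR.le)
  -- the exact identity
  have hmain : ∀ t ∈ S0, ∫ y, ‖1 - Q y ^ t‖ ^ 2 * G μ' A θ' (t * N) y ∂κ ≤
      6 * ε * (M * (p / 2 * q)) := by
    intro t ht
    have htS := hS0S t ht
    have h1 := d.star htw (h' (t * N)) (h (t * N)) (hφ (t * N)) hZ2m hZ2inv (t * N * (p : ℤ) ^ m)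
    have h2 : ∀ᵐ y ∂κ, ‖Q y‖ = 1 ∧ quo φ p (t * N) m y = Q y ^ t := by
      rw [hκ, ae_restrict_iff' hZ2m]
      filter_upwards [hone, hφ.quo_mul N t m] with y h1 h2 hy
      exact ⟨quo_norm N m (h1 hy), h2 (h1 hy)⟩
    have h3 : ∫ y, ((1 - Q y ^ t) * Gm μ' A θ' p (t * N) m y).re ∂κ = 0 := by
      rw [← h1]
      refine integral_congr_ae ?_
      filter_upwards [h2] with y hy
      rw [← hy.2]
      rfl
    have hGmb : ∀ y, ‖Gm μ' A θ' p (t * N) m y‖ ≤ 1 := by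
      intro y
      unfold Gm
      refine (norm_integral_le_of_norm_le_const (C := 1) (Eventually.of_forall fun x => ?_)).trans ?_
      · rw [norm_mul, norm_mul, e_norm, _root_.one_mul, RCLike.norm_conj, Complex.norm_real,
          Real.norm_of_nonneg (ind_nonneg _)]
        exact mul_le_one₀ (ind_le_one _) (norm_nonneg _) ((h' _).2.1 x)
      · simp
    have hi0 : Integrable (fun y => (1 - Q y ^ t) * Gm μ' A θ' p (t * N) m y) κ := by
      refine int_bdd ((measurable_const.sub (hQm.pow_const t)).mul (Gm_meas d.meas h' _ m))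
        (C := 2) fun y => ?_
      rw [norm_mul]
      have h4 := hQpow t y
      have h5 := hGmb y
      nlinarith [norm_nonneg (1 - Q y ^ t), norm_nonneg (Gm μ' A θ' p (t * N) m y)]
    have hi1 : Integrable (fun y => ((1 - Q y ^ t) * Gm μ' A θ' p (t * N) m y).re) κ := hi0.re
    have h4 : ∫ y, ‖1 - Q y ^ t‖ ^ 2 * G μ' A θ' (t * N) y / 2 ∂κ ≤
        ∫ y, (((1 - Q y ^ t) * Gm μ' A θ' p (t * N) m y).re + ‖1 - Q y ^ t‖ * (3 * ε)) ∂κ := by
      refine integral_mono_ae ((hdi3 t _).div_const 2) (hi1.add ((hdi t).mul_const _)) ?_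
      have h5 : ∀ᵐ y ∂κ, y ∈ Z2 := ae_restrict_mem hZ2m
      filter_upwards [h2, h5] with y hy hyZ
      have h6 : (1 - Q y ^ t) * Gm μ' A θ' p (t * N) m y =
          (1 - Q y ^ t) * ((G μ' A θ' (t * N) y : ℝ) : ℂ) +
          (1 - Q y ^ t) * (Gm μ' A θ' p (t * N) m y - (G μ' A θ' (t * N) y : ℂ)) := by ring
      have h7 : ((1 - Q y ^ t) * ((G μ' A θ' (t * N) y : ℝ) : ℂ)).re =
          ‖1 - Q y ^ t‖ ^ 2 * G μ' A θ' (t * N) y / 2 := by
        rw [Complex.re_mul_ofReal, norm_one_sub_sq (by rw [norm_pow, hy.1, one_pow])]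
        simp only [Complex.sub_re, Complex.one_re]
        ring
      have h8 := Complex.abs_re_le_norm
        ((1 - Q y ^ t) * (Gm μ' A θ' p (t * N) m y - (G μ' A θ' (t * N) y : ℂ)))
      rw [norm_mul] at h8
      have h9 := mul_le_mul_of_nonneg_left (hclose y hyZ t ht) (norm_nonneg (1 - Q y ^ t))
      have h10 := (abs_le.1 (h8.trans h9)).1
      rw [h6, Complex.add_re, h7]
      linarith
    rw [integral_add hi1 ((hdi t).mul_const _), h3, integral_div, integral_mul_const,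
      zero_add] at h4
    have h5 := mul_le_mul_of_nonneg_right (hgap2 t ht) (show 0 ≤ 3 * ε by positivity)
    linarith
  -- the lower bound
  have hlow : g / (2 * M ^ 2) * q ≤ ∑ t ∈ S0, ∫ y, ‖1 - Q y ^ t‖ ^ 2 * G μ' A θ' (t * N) y ∂κ := by
    have hqM : ∫ y, ‖1 - Q y ^ M‖ ^ 2 ∂κ = q :=
      hφ.sq_pow (d.inv M hMS) N m hZ2m (hZ2inv M hMS) hone
    rw [← hqM, ← integral_finsetSum _ fun t _ => hdi3 t _, ← integral_const_mul]
    refine integral_mono_ae ((hdi2 M).const_mul _) (integrable_finsetSum _ fun t _ => hdi3 t _) ?_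
    have h5 : ∀ᵐ y ∂κ, y ∈ Z2 := ae_restrict_mem hZ2m
    have h2 : ∀ᵐ y ∂κ, ‖Q y‖ = 1 := by
      rw [hκ, ae_restrict_iff' hZ2m]
      filter_upwards [hone] with y h1 hy
      exact quo_norm N m (h1 hy)
    filter_upwards [h2, h5] with y hy hyZ
    obtain ⟨t, ht, hlt⟩ := hbig y (hZ2sub hyZ)
    have h6 : ‖1 - Q y ^ t‖ ^ 2 * G μ' A θ' (t * N) y ≤
        ∑ t ∈ S0, ‖1 - Q y ^ t‖ ^ 2 * G μ' A θ' (t * N) y :=
      Finset.single_le_sum (f := fun t : ℕ => ‖1 - Q y ^ t‖ ^ 2 * G μ' A θ' (t * N) y)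
        (fun t _ => mul_nonneg (by positivity) (G_nonneg _ _)) ht
    refine le_trans ?_ h6
    have h7 := pow_compare hy (hdvd t ht) hM0
    have h8 : ‖1 - Q y ^ M‖ ^ 2 ≤ (M * ‖1 - Q y ^ t‖) ^ 2 :=
      pow_le_pow_left₀ (norm_nonneg _) h7 2
    calc g / (2 * M ^ 2) * ‖1 - Q y ^ M‖ ^ 2 ≤ g / (2 * M ^ 2) * (M * ‖1 - Q y ^ t‖) ^ 2 :=
          mul_le_mul_of_nonneg_left h8 (by positivity)
      _ = ‖1 - Q y ^ t‖ ^ 2 * (g / 2) := by field_simp
      _ ≤ _ := mul_le_mul_of_nonneg_left hlt (by positivity)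
  have hup : ∑ t ∈ S0, ∫ y, ‖1 - Q y ^ t‖ ^ 2 * G μ' A θ' (t * N) y ∂κ ≤
      S0.card * (6 * ε * (M * (p / 2 * q))) := by
    refine (Finset.sum_le_sum hmain).trans ?_
    rw [Finset.sum_const, nsmul_eq_mul]
  have hqz : q = 0 := by
    have h1 : g / (2 * M ^ 2) * q ≤ g / (4 * M ^ 2) * q := by
      refine (hlow.trans hup).trans ?_
      have h2 : (S0.card : ℝ) * (6 * ε * (M * (p / 2 * q))) =
          (S0.card / (S0.card + 1)) * (g / (4 * M ^ 2)) * q := by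
        rw [hε, hK]
        field_simp
        ring
      rw [h2]
      refine mul_le_mul_of_nonneg_right ?_ hq0
      refine mul_le_of_le_one_left (by positivity) ?_
      rw [div_le_one (by positivity)]
      linarith
    have h3 : g / (2 * M ^ 2) = 2 * (g / (4 * M ^ 2)) := by field_simp; norm_num
    rw [h3] at h1
    have h4 : 0 < g / (4 * (M : ℝ) ^ 2) := by positivity
    have h5 : g / (4 * (M : ℝ) ^ 2) * q ≤ 0 := by linarith
    have h6 : q ≤ 0 := by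
      by_contra h7
      push Not at h7
      have := mul_pos h4 h7
      linarith
    exact le_antisymm h6 hq0
  have hi2 : Integrable (fun y => ‖1 - Q y‖ ^ 2) κ := by simpa using hdi2 1
  have h1 := (integral_eq_zero_iff_of_nonneg (μ := κ) (f := fun y => ‖1 - Q y‖ ^ 2)
    (fun y => by positivity) hi2).1 hqz
  have h2 := (ae_restrict_iff' hZ2m).1 h1
  filter_upwards [h2, hone] with y hy hy2 hyZ
  refine ⟨hy2 hyZ, ?_⟩
  have h3 : ‖1 - Q y‖ ^ 2 = 0 := hy hyZ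
  have h4 : 1 - Q y = 0 := by
    rw [← norm_eq_zero]
    exact (pow_eq_zero_iff two_ne_zero).1 h3
  exact (sub_eq_zero.1 h4).symm

lemma int_pow {μ : Measure T} {p : ℕ} (hinv : MeasurePreserving (fun x : T => p • x) μ μ)
    (N : ℤ) (m : ℕ) : ∫ x, e ((p : ℤ) ^ m * N) x ∂μ = ∫ x, e N x ∂μ := by
  induction m with
  | zero => simp
  | succ m ih =>
    rw [← ih, ← map_int hinv (e_meas ((p : ℤ) ^ m * N)).stronglyMeasurable]
    congr 1
    ext x
    rw [e_nsmul]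
    congr 1
    ring

/-- the main theorem -/
theorem main (he' : Erg S μ') (he : Erg S μ) (ht : Twin μ' μ)
    (hν : ∀ n ∈ S, MeasurePreserving (fun x : T => n • x) ν ν) {p : ℕ} (hp : 2 ≤ p) (hpS : p ∈ S)
    (h0S : 0 ∉ S) (h1S : 1 ∈ S)
    (hns : ¬ ((μ'.prod ν).map (fun z : T × T => z.1 + z.2)) ⟂ₘ μ) (hne : μ ≠ volume) :
    ∃ y, ν {y} ≠ 0 := by
  classical
  obtain ⟨A, c, d⟩ := exists_data he' he hν hns
  have hall : ∃ N : ℤ, N ≠ 0 ∧ ∫ x, e N x ∂μ ≠ 0 := by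
    by_contra hcon
    push Not at hcon
    exact hne (eq_volume hcon)
  obtain ⟨N, hN, hN1⟩ := hall
  obtain ⟨θ', h'⟩ := WLs.exists μ' (hyperfilter ℕ) p
  obtain ⟨θ, h⟩ := WLs.exists μ (hyperfilter ℕ) p
  obtain ⟨φ, hφ⟩ := WLs.exists ν (hyperfilter ℕ) p
  have hpos : 0 < ∫ x, ‖θ N x‖ ^ 2 ∂μ := by
    refine lt_of_le_of_ne (integral_nonneg fun x => by positivity) fun h1 => hN1 ?_
    have h2 := (integral_eq_zero_iff_of_nonneg (μ := μ) (f := fun x => ‖θ N x‖ ^ 2)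
      (fun x => by positivity) (sq_norm_int (h N).1 (h N).2.1)).1 h1.symm
    have h3 := (h N).2.2 (fun _ => 1) 1 measurable_const (fun _ => by simp)
    have h4 : ∫ x, θ N x * (1 : ℂ) ∂μ = 0 := by
      refine integral_eq_zero_of_ae ?_
      filter_upwards [h2] with x hx
      have h5 : ‖θ N x‖ ^ 2 = 0 := hx
      have h6 : θ N x = 0 := by
        rw [← norm_eq_zero]
        exact (pow_eq_zero_iff two_ne_zero).1 h5
      rw [h6]; simp
    rw [h4] at h3
    have h5 : ∀ m : ℕ, ∫ x, e (N * (p : ℤ) ^ m) x * (1 : ℂ) ∂μ = ∫ x, e N x ∂μ := by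
      intro m
      simp_rw [mul_one]
      rw [mul_comm]
      exact int_pow (he.inv p hpS) N m
    simp_rw [h5] at h3
    exact tendsto_nhds_unique tendsto_const_nhds h3
  obtain ⟨Z, hZm, hZ0, hZ⟩ := sq_zero d ht h' h hφ hp hpS h0S h1S hpos
  -- two different indices
  have hinf : {m : ℕ | ∀ᵐ y ∂ν, y ∈ Z → (y ∈ one φ N ∧ quo φ p N m y = 1)}.Infinite :=
    fun hf => notMem_hyperfilter_of_finite hf hZ
  obtain ⟨m, hm, m', hm', hmm⟩ := hinf.nontrivial
  have hD : N * (p : ℤ) ^ m - N * (p : ℤ) ^ m' ≠ 0 := by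
    intro h1
    have h2 : (p : ℤ) ^ m = (p : ℤ) ^ m' := mul_left_cancel₀ hN (sub_eq_zero.1 h1)
    have h3 : p ^ m = p ^ m' := by exact_mod_cast h2
    exact hmm (Nat.pow_right_injective hp h3)
  set D : ℤ := N * (p : ℤ) ^ m - N * (p : ℤ) ^ m' with hDdef
  have hfin : {x : T | D • x = 0}.Finite := by
    have hn : 0 < D.natAbs := Int.natAbs_pos.2 hD
    refine (AddCircle.finite_torsion (1 : ℝ) hn).subset fun x hx => ?_
    have hx' : D • x = 0 := hx
    change D.natAbs • x = 0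
    rcases Int.natAbs_eq D with h1 | h1
    · rw [h1, natCast_zsmul] at hx'
      exact hx'
    · rw [h1, neg_smul, natCast_zsmul, neg_eq_zero] at hx'
      exact hx'
  have hae : ∀ᵐ y ∂ν, y ∈ Z → y ∈ {x : T | D • x = 0} := by
    have h1 : ∀ᵐ y ∂ν, y ∈ Z → (y ∈ one φ N ∧ quo φ p N m y = 1) := hm
    have h2 : ∀ᵐ y ∂ν, y ∈ Z → (y ∈ one φ N ∧ quo φ p N m' y = 1) := hm'
    filter_upwards [h1, h2] with y h3 h4 hy
    obtain ⟨h5, h6⟩ := h3 hy
    obtain ⟨-, h7⟩ := h4 hy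
    refine e_eq_one ?_
    unfold quo at h6 h7
    have h8 : conj (φ N y) ≠ 0 := by
      intro h9
      have h10 : ‖φ N y‖ = 1 := h5
      rw [← RCLike.norm_conj, h9, norm_zero] at h10
      exact zero_ne_one h10
    have h9 : e (N * (p : ℤ) ^ m) y = e (N * (p : ℤ) ^ m') y :=
      mul_right_cancel₀ h8 (h6.trans h7.symm)
    rw [hDdef, sub_eq_add_neg, e_add, e_neg, h9, Complex.mul_conj, Complex.normSq_eq_norm_sq, e_norm]
    norm_num
  by_contra hcon
  push Not at hcon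
  apply hZ0
  have h1 : ν {x : T | D • x = 0} = 0 := by
    have h2 : {x : T | D • x = 0} = ⋃ x ∈ {x : T | D • x = 0}, {x} := by
      ext x; simp
    rw [h2]
    exact (measure_biUnion_null_iff hfin.countable).2 fun x _ => hcon x
  exact measure_mono_null_ae hae h1

end Q123.CW
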