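import Pool.Agent.Q123.CW.Join

/-!
Identities for weak limits on the joining.
-/

set_option autoImplicit false
set_option linter.unusedSectionVars false

open MeasureTheory Filter Topology Set
open scoped ENNReal ComplexConjugate

namespace Q123.CW

open Q123.CV

variable {S : Set ℕ} {μ' μ ν : Measure T} [IsProbabilityMeasure μ'] [IsProbabilityMeasure μ]
  [IsProbabilityMeasure ν] {A : Set (T × T)} {c : ℝ≥0∞} {U : Ultrafilter ℕ} {b : ℕ → ℤ}
  {θ' θ φ : T → ℂ}

lemma e_neg_arg (n : ℤ) (x : T) : e n (-x) = e (-n) x := by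
  have := e_zsmul n (-1) x
  rw [neg_one_zsmul, neg_one_mul] at this
  exact this

lemma int_neg {F : T → ℂ} (hF : Measurable F) : ∫ x, F x ∂(μ.map fun x => -x) = ∫ x, F (-x) ∂μ :=
  integral_map measurable_neg.aemeasurable hF.aestronglyMeasurable

lemma WL_neg (h : WL (μ.map fun x => -x) U b θ') :
    WL μ U (fun m => -b m) (fun x => θ' (-x)) := by
  refine ⟨h.1.comp measurable_neg, fun x => h.2.1 _, fun g C hg hC => ?_⟩
  have h1 := h.2.2 (fun x => g (-x)) C (hg.comp measurable_neg) (fun x => hC _)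
  rw [int_neg (F := fun x => θ' x * g (-x)) (h.1.mul (hg.comp measurable_neg))] at h1
  simp only [neg_neg] at h1
  refine h1.congr fun m => ?_
  rw [int_neg (F := fun x => e (b m) x * g (-x)) ((e_meas _).mul (hg.comp measurable_neg))]
  simp only [neg_neg]
  congr 1
  ext x
  rw [e_neg_arg]

lemma twin_norm (ht : Twin μ' μ) (h' : WL μ' U b θ') (h : WL μ U b θ) :
    ∫ x, ‖θ' x‖ ^ 2 ∂μ' = ∫ x, ‖θ x‖ ^ 2 ∂μ := by
  rcases ht with rfl | rfl
  · exact h'.norm_eq h
  · have h1 := (WL_neg h').norm_eq h.conj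
    have h2 : ∫ x, ‖θ' x‖ ^ 2 ∂(μ.map fun x => -x) = ∫ x, ‖θ' (-x)‖ ^ 2 ∂μ :=
      integral_map measurable_neg.aemeasurable (h'.1.norm.pow_const 2).aestronglyMeasurable
    rw [h2, h1]
    congr 1
    ext x
    rw [RCLike.norm_conj]

lemma twin_re (ht : Twin μ' μ) (h' : WL μ' U b θ') (h : WL μ U b θ) (n : ℤ) :
    (∫ x, e n x * conj (θ' x) ∂μ').re = (∫ x, e n x * conj (θ x) ∂μ).re := by
  rcases ht with rfl | rfl
  · congr 1
    refine integral_congr_ae ?_
    filter_upwards [unique h' h] with x hx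
    rw [hx]
  · rw [int_neg (F := fun x => e n x * conj (θ' x)) ((e_meas _).mul (conj_meas h'.1))]
    have h1 : ∫ x, e n (-x) * conj (θ' (-x)) ∂μ = conj (∫ x, e n x * conj (θ x) ∂μ) := by
      rw [← integral_conj]
      refine integral_congr_ae ?_
      filter_upwards [unique (WL_neg h') h.conj] with x hx
      rw [hx, e_neg_arg, e_neg, map_mul]
    rw [h1, Complex.conj_re]

/-- the indicator function of `A` -/
noncomputable def ind (A : Set (T × T)) (z : T × T) : ℝ := A.indicator (fun _ => 1) z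

lemma ind_meas (hA : MeasurableSet A) : Measurable (ind A) := measurable_const.indicator hA

lemma ind_nonneg (z : T × T) : 0 ≤ ind A z := indicator_nonneg (fun _ _ => zero_le_one) z

lemma ind_le_one (z : T × T) : ind A z ≤ 1 := by
  unfold ind
  by_cases h : z ∈ A
  · rw [indicator_of_mem h]
  · rw [indicator_of_notMem h]; exact zero_le_one

lemma ind_slice (hA : MeasurableSet A) (y : T) : Measurable fun x => ind A (x, y) :=
  (ind_meas hA).comp measurable_prodMk_right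

lemma int_ind {P : Measure (T × T)} (hA : MeasurableSet A) (F : T × T → ℂ) :
    ∫ z in A, F z ∂P = ∫ z, (ind A z : ℂ) * F z ∂P := by
  rw [← integral_indicator hA]
  congr 1
  ext z
  unfold ind
  by_cases h : z ∈ A
  · rw [indicator_of_mem h, indicator_of_mem h]; simp
  · rw [indicator_of_notMem h, indicator_of_notMem h]; simp

namespace Data

/-- the key identity -/
lemma key (d : Data S μ' μ ν A c) (h' : WL μ' U b θ') (h : WL μ U b θ) (hφ : WL ν U b φ) :
    ∫ z in A, (θ' z.1 * φ z.2) * conj (θ (z.1 + z.2)) ∂(μ'.prod ν) =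
      ((c.toReal * ∫ x, ‖θ x‖ ^ 2 ∂μ : ℝ) : ℂ) := by
  set P := μ'.prod ν with hP
  have hcm := conj_meas h.1
  have hcb : ∀ x, ‖conj (θ x)‖ ≤ 1 := fun x => by rw [RCLike.norm_conj]; exact h.2.1 x
  have hcl : Measurable fun z : T × T => conj (θ (z.1 + z.2)) := hcm.comp sum_meas
  set H : T × T → ℂ := A.indicator fun z => conj (θ (z.1 + z.2)) with hH
  have hHi : Integrable H P := (int_bdd hcl (C := 1) fun x => hcb _).indicator d.meas
  have h1 := tensor2 h' hφ hHi
  have e1 : ∀ G : T × T → ℂ, ∫ z, G z * H z ∂P = ∫ z in A, G z * conj (θ (z.1 + z.2)) ∂P := by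
    intro G
    rw [← integral_indicator d.meas]
    congr 1
    ext x
    by_cases hx : x ∈ A
    · rw [hH, indicator_of_mem hx, indicator_of_mem hx]
    · rw [hH, indicator_of_notMem hx, indicator_of_notMem hx, mul_zero]
  have e2 : ∀ m, ∫ z, (e (b m) z.1 * e (b m) z.2) * H z ∂P =
      c.toReal • ∫ y, e (b m) y * conj (θ y) ∂μ := by
    intro m
    rw [e1]
    simp_rw [← e_add_arg]
    exact int_coord sum_meas d.law (F := fun y => e (b m) y * conj (θ y))
      ((e_meas _).mul hcm).stronglyMeasurable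
  have h2 := (h.2.2 _ 1 hcm hcb).const_smul c.toReal
  have h3 : ∫ z, (θ' z.1 * φ z.2) * H z ∂P = c.toReal • ∫ y, θ y * conj (θ y) ∂μ := by
    refine tendsto_nhds_unique h1 ?_
    refine h2.congr fun m => ?_
    exact (e2 m).symm
  rw [← e1, h3, sq_int, Complex.real_smul]
  push_cast
  rfl

/-- the equality case -/
theorem eq_case (d : Data S μ' μ ν A c) (ht : Twin μ' μ) (h' : WL μ' U b θ') (h : WL μ U b θ)
    (hφ : WL ν U b φ) :
    ∀ᵐ z ∂((μ'.prod ν).restrict A), θ (z.1 + z.2) = θ' z.1 * φ z.2 ∧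
      (θ' z.1 = 0 ∨ ‖φ z.2‖ = 1) := by
  set P := μ'.prod ν with hP
  have hk := congrArg Complex.re (d.key h' h hφ)
  have hfm : Measurable fun z : T × T => θ' z.1 * φ z.2 :=
    (h'.1.comp measurable_fst).mul (hφ.1.comp measurable_snd)
  have hsm : Measurable fun z : T × T => θ (z.1 + z.2) := h.1.comp sum_meas
  have hf1 : ∀ z : T × T, ‖θ' z.1 * φ z.2‖ ≤ 1 := fun z => by
    rw [norm_mul]; exact mul_le_one₀ (h'.2.1 _) (norm_nonneg _) (hφ.2.1 _)
  have hki : Integrable (fun z : T × T => (θ' z.1 * φ z.2) * conj (θ (z.1 + z.2)))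
      (P.restrict A) := int_bdd (hfm.mul (conj_meas hsm)) (C := 1) fun z => by
    rw [norm_mul, RCLike.norm_conj]
    exact mul_le_one₀ (hf1 z) (norm_nonneg _) (h.2.1 _)
  rw [re_int hki, Complex.ofReal_re] at hk
  have hfst : ∫ z in A, ‖θ' z.1‖ ^ 2 ∂P = c.toReal * ∫ x, ‖θ x‖ ^ 2 ∂μ := by
    have h1 := d.fst_law d.meas d.Ainv
    rw [← d.c_eq] at h1
    rw [← twin_norm ht h' h]
    exact int_coord measurable_fst h1 (F := fun y => ‖θ' y‖ ^ 2)
      (h'.1.norm.pow_const 2).stronglyMeasurable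
  have hsum : ∫ z in A, ‖θ (z.1 + z.2)‖ ^ 2 ∂P = c.toReal * ∫ x, ‖θ x‖ ^ 2 ∂μ :=
    int_coord sum_meas d.law (F := fun y => ‖θ y‖ ^ 2) (h.1.norm.pow_const 2).stronglyMeasurable
  have hi1 : Integrable (fun z : T × T => ‖θ' z.1‖ ^ 2) (P.restrict A) :=
    int_bdd ((h'.1.comp measurable_fst).norm.pow_const 2) (C := 1) fun z => by
      change ‖‖θ' z.1‖ ^ 2‖ ≤ 1
      rw [Real.norm_of_nonneg (by positivity)]
      exact pow_le_one₀ (norm_nonneg _) (h'.2.1 _)
  have hi2 : Integrable (fun z : T × T => ‖θ (z.1 + z.2)‖ ^ 2) (P.restrict A) :=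
    int_bdd (hsm.norm.pow_const 2) (C := 1) fun z => by
      rw [Real.norm_of_nonneg (by positivity)]
      exact pow_le_one₀ (norm_nonneg _) (h.2.1 _)
  set D : T × T → ℝ := fun z => ‖θ' z.1‖ ^ 2 + ‖θ (z.1 + z.2)‖ ^ 2 -
    2 * ((θ' z.1 * φ z.2) * conj (θ (z.1 + z.2))).re with hD
  have hkir : Integrable (fun z : T × T => 2 * ((θ' z.1 * φ z.2) * conj (θ (z.1 + z.2))).re)
      (P.restrict A) := hki.re.const_mul 2
  have hi12 : Integrable (fun z : T × T => ‖θ' z.1‖ ^ 2 + ‖θ (z.1 + z.2)‖ ^ 2) (P.restrict A) :=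
    hi1.add hi2
  have hD0 : ∫ z in A, D z ∂P = 0 := by
    simp only [hD]
    rw [integral_sub hi12 hkir, integral_add hi1 hi2, integral_const_mul, hk, hfst, hsum]
    ring
  have hDeq : ∀ z, D z = ‖θ' z.1 * φ z.2 - θ (z.1 + z.2)‖ ^ 2 +
      ‖θ' z.1‖ ^ 2 * (1 - ‖φ z.2‖ ^ 2) := by
    intro z
    have h1 : ‖θ' z.1 * φ z.2 - θ (z.1 + z.2)‖ ^ 2 = ‖θ' z.1 * φ z.2‖ ^ 2 +
        ‖θ (z.1 + z.2)‖ ^ 2 - 2 * ((θ' z.1 * φ z.2) * conj (θ (z.1 + z.2))).re := by
      rw [← Complex.normSq_eq_norm_sq, Complex.normSq_sub, Complex.normSq_eq_norm_sq,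
        Complex.normSq_eq_norm_sq]
    rw [h1, norm_mul, mul_pow, hD]
    ring
  have hnn : ∀ z : T × T, 0 ≤ ‖θ' z.1‖ ^ 2 * (1 - ‖φ z.2‖ ^ 2) := fun z => by
    have h2 := hφ.2.1 z.2
    have h3 := norm_nonneg (φ z.2)
    refine mul_nonneg (by positivity) ?_
    nlinarith
  have hDnn : ∀ z, 0 ≤ D z := fun z => by
    rw [hDeq]
    exact add_nonneg (by positivity) (hnn z)
  have hDi : Integrable D (P.restrict A) := (hi1.add hi2).sub hkir
  have h5 := (integral_eq_zero_iff_of_nonneg hDnn hDi).1 hD0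
  filter_upwards [h5] with z hz
  have h6 : D z = 0 := hz
  rw [hDeq] at h6
  have h7 : ‖θ' z.1 * φ z.2 - θ (z.1 + z.2)‖ ^ 2 = 0 := by
    have := sq_nonneg (‖θ' z.1 * φ z.2 - θ (z.1 + z.2)‖)
    linarith [hnn z]
  have h8 : ‖θ' z.1‖ ^ 2 * (1 - ‖φ z.2‖ ^ 2) = 0 := by
    have := sq_nonneg (‖θ' z.1 * φ z.2 - θ (z.1 + z.2)‖)
    linarith [hnn z]
  constructor
  · have h9 := (pow_eq_zero_iff two_ne_zero).1 h7
    rw [norm_eq_zero, sub_eq_zero] at h9
    exact h9.symm
  · rcases mul_eq_zero.1 h8 with h9 | h9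
    · left
      rw [← norm_eq_zero]
      exact (pow_eq_zero_iff two_ne_zero).1 h9
    · right
      have h10 : ‖φ z.2‖ ^ 2 = 1 := by linarith
      exact (pow_eq_one_iff_of_nonneg (norm_nonneg _) two_ne_zero).1 h10

/-- the exact identity for differences -/
theorem star (d : Data S μ' μ ν A c) (ht : Twin μ' μ) (h' : WL μ' U b θ') (h : WL μ U b θ)
    (hφ : WL ν U b φ) {Z : Set T} (hZ : MeasurableSet Z)
    (hinv : ∀ n ∈ S, ∀ᵐ y ∂ν, (n • y ∈ Z ↔ y ∈ Z)) (n : ℤ) :
    ∫ y in Z, ((1 - e n y * conj (φ y)) *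
      ∫ x, (ind A (x, y) : ℂ) * (e n x * conj (θ' x)) ∂μ').re ∂ν = 0 := by
  set P := μ'.prod ν with hP
  set B := A ∩ Prod.snd ⁻¹' Z with hB
  have hBm : MeasurableSet B := d.meas.inter (measurable_snd hZ)
  have hBA : B ⊆ A := inter_subset_left
  have hBinv := d.Zinv hinv
  have hf := d.fst_law hBm hBinv
  have hs := d.sum_law hBm hBA hBinv
  have hg' : Measurable fun x => e n x * conj (θ' x) := (e_meas _).mul (conj_meas h'.1)
  have hg : Measurable fun x => e n x * conj (θ x) := (e_meas _).mul (conj_meas h.1)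
  have hh : Measurable fun x => e n x * conj (φ x) := (e_meas _).mul (conj_meas hφ.1)
  have hg'1 : ∀ x, ‖e n x * conj (θ' x)‖ ≤ 1 := fun x => by
    rw [norm_mul, e_norm, one_mul, RCLike.norm_conj]; exact h'.2.1 x
  have hh1 : ∀ x, ‖e n x * conj (φ x)‖ ≤ 1 := fun x => by
    rw [norm_mul, e_norm, one_mul, RCLike.norm_conj]; exact hφ.2.1 x
  -- on `B`
  have hI1 : ∫ z in B, e n z.1 * conj (θ' z.1) ∂P =
      (P B).toReal • ∫ x, e n x * conj (θ' x) ∂μ' :=
    int_coord measurable_fst hf (F := fun x => e n x * conj (θ' x)) hg'.stronglyMeasurable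
  have hI2 : ∫ z in B, (e n z.1 * conj (θ' z.1)) * (e n z.2 * conj (φ z.2)) ∂P =
      (P B).toReal • ∫ x, e n x * conj (θ x) ∂μ := by
    have h1 : ∫ z in B, (e n z.1 * conj (θ' z.1)) * (e n z.2 * conj (φ z.2)) ∂P =
        ∫ z in B, e n (z.1 + z.2) * conj (θ (z.1 + z.2)) ∂P := by
      refine integral_congr_ae ?_
      have h2 := ae_mono (Measure.restrict_mono hBA le_rfl) (d.eq_case ht h' h hφ)
      filter_upwards [h2] with z hz
      rw [hz.1, e_add_arg, map_mul]
      ring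
    rw [h1]
    exact int_coord sum_meas hs (F := fun x => e n x * conj (θ x)) hg.stronglyMeasurable
  have hi1 : Integrable (fun z : T × T => e n z.1 * conj (θ' z.1)) (P.restrict B) :=
    int_bdd (hg'.comp measurable_fst) (C := 1) fun z => hg'1 _
  have hi2 : Integrable (fun z : T × T => (e n z.1 * conj (θ' z.1)) * (e n z.2 * conj (φ z.2)))
      (P.restrict B) :=
    int_bdd ((hg'.comp measurable_fst).mul (hh.comp measurable_snd)) (C := 1) fun z => by
      change ‖(e n z.1 * conj (θ' z.1)) * (e n z.2 * conj (φ z.2))‖ ≤ 1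
      rw [norm_mul]
      exact mul_le_one₀ (hg'1 _) (norm_nonneg _) (hh1 _)
  have hI3 : (∫ z in B, (1 - e n z.2 * conj (φ z.2)) * (e n z.1 * conj (θ' z.1)) ∂P).re = 0 := by
    have h1 : ∫ z in B, (1 - e n z.2 * conj (φ z.2)) * (e n z.1 * conj (θ' z.1)) ∂P =
        ∫ z in B, e n z.1 * conj (θ' z.1) ∂P -
        ∫ z in B, (e n z.1 * conj (θ' z.1)) * (e n z.2 * conj (φ z.2)) ∂P := by
      rw [← integral_sub hi1 hi2]
      congr 1
      ext z
      ring
    rw [h1, hI1, hI2, Complex.sub_re, Complex.real_smul, Complex.real_smul, Complex.re_ofReal_mul,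
      Complex.re_ofReal_mul, twin_re ht h' h n, sub_self]
  -- slices
  have hW : Measurable fun z : T × T => (1 - e n z.2 * conj (φ z.2)) *
      ((ind A z : ℂ) * (e n z.1 * conj (θ' z.1))) := by
    refine Measurable.mul (measurable_const.sub (hh.comp measurable_snd)) ?_
    exact (Complex.measurable_ofReal.comp (ind_meas d.meas)).mul (hg'.comp measurable_fst)
  have hWb : ∀ z : T × T, ‖(1 - e n z.2 * conj (φ z.2)) *
      ((ind A z : ℂ) * (e n z.1 * conj (θ' z.1)))‖ ≤ 2 := fun z => by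
    rw [norm_mul, norm_mul, Complex.norm_real, Real.norm_of_nonneg (ind_nonneg z)]
    have h1 : ‖1 - e n z.2 * conj (φ z.2)‖ ≤ 2 := by
      refine (norm_sub_le _ _).trans ?_
      rw [norm_one]; linarith [hh1 z.2]
    have h2 : ind A z * ‖e n z.1 * conj (θ' z.1)‖ ≤ 1 :=
      mul_le_one₀ (ind_le_one z) (norm_nonneg _) (hg'1 _)
    calc _ ≤ 2 * 1 := mul_le_mul h1 h2 (mul_nonneg (ind_nonneg z) (norm_nonneg _)) (by norm_num)
      _ = 2 := by norm_num
  have hI4 : ∫ z in B, (1 - e n z.2 * conj (φ z.2)) * (e n z.1 * conj (θ' z.1)) ∂P =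
      ∫ y in Z, (1 - e n y * conj (φ y)) *
        (∫ x, (ind A (x, y) : ℂ) * (e n x * conj (θ' x)) ∂μ') ∂ν := by
    have h1 : P.restrict B = (P.restrict (Prod.snd ⁻¹' Z)).restrict A := by
      rw [Measure.restrict_restrict d.meas, hB]
    have h2 : P.restrict (Prod.snd ⁻¹' Z) = μ'.prod (ν.restrict Z) := by
      rw [hP, ← univ_prod, ← Measure.prod_restrict, Measure.restrict_univ]
    rw [h1, h2, int_ind d.meas]
    have h3 : ∀ z : T × T, (ind A z : ℂ) * ((1 - e n z.2 * conj (φ z.2)) *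
        (e n z.1 * conj (θ' z.1))) = (1 - e n z.2 * conj (φ z.2)) *
        ((ind A z : ℂ) * (e n z.1 * conj (θ' z.1))) := fun z => by ring
    simp_rw [h3]
    rw [integral_prod_symm _ (int_bdd hW hWb)]
    congr 1
    ext y
    rw [← integral_const_mul]
  rw [hI4] at hI3
  rw [← re_int] at *
  · exact hI3
  · have h5 : Integrable (fun z : T × T => (1 - e n z.2 * conj (φ z.2)) *
        ((ind A z : ℂ) * (e n z.1 * conj (θ' z.1)))) (μ'.prod (ν.restrict Z)) := int_bdd hW hWb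
    have h6 := h5.integral_prod_right
    refine h6.congr (Eventually.of_forall fun y => ?_)
    simp only
    rw [← integral_const_mul]

end Data

end Q123.CW
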