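import Pool.Agent.Q123.CW.Prod

/-!
The part of a convolution which is not singular.
-/

set_option autoImplicit false
set_option linter.unusedSectionVars false

open MeasureTheory Filter Topology Set
open scoped ENNReal ComplexConjugate

namespace Q123.CW

open Q123.CV

lemma mp_restrict {X : Type*} [MeasurableSpace X] {P : Measure X} {f : X → X}
    (hf : MeasurePreserving f P P) {B : Set X} (hB : MeasurableSet B)
    (hinv : ∀ᵐ z ∂P, (f z ∈ B ↔ z ∈ B)) :
    MeasurePreserving f (P.restrict B) (P.restrict B) := by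
  have h2 := hf.restrict_preimage (s := B) hB
  have h3 : P.restrict (f ⁻¹' B) = P.restrict B := by
    refine Measure.restrict_congr_set ?_
    filter_upwards [hinv] with x hx
    exact propext hx
  rwa [h3] at h2

/-- the same measure up to a reflection -/
def Twin (μ' μ : Measure T) : Prop := μ' = μ ∨ μ' = μ.map fun x => -x

/-- the joining given by the sum of two variables -/
structure Data (S : Set ℕ) (μ' μ ν : Measure T) (A : Set (T × T)) (c : ℝ≥0∞) : Prop where
  erg' : Erg S μ'
  erg : Erg S μ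
  inv : ∀ n ∈ S, MeasurePreserving (fun x : T => n • x) ν ν
  meas : MeasurableSet A
  Ainv : ∀ n ∈ S, ∀ᵐ z ∂(μ'.prod ν), ((n • z.1, n • z.2) ∈ A ↔ z ∈ A)
  c0 : c ≠ 0
  c1 : c ≤ 1
  law : ((μ'.prod ν).restrict A).map (fun z => z.1 + z.2) = c • μ

variable {S : Set ℕ} {μ' μ ν : Measure T} [IsProbabilityMeasure μ'] [IsProbabilityMeasure μ]
  [IsProbabilityMeasure ν] {A : Set (T × T)} {c : ℝ≥0∞}

lemma sum_meas : Measurable (fun z : T × T => z.1 + z.2) := measurable_fst.add measurable_snd

lemma diag_mp (h1 : ∀ n ∈ S, MeasurePreserving (fun x : T => n • x) μ' μ')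
    (h2 : ∀ n ∈ S, MeasurePreserving (fun x : T => n • x) ν ν) (n : ℕ) (hn : n ∈ S) :
    MeasurePreserving (fun z : T × T => (n • z.1, n • z.2)) (μ'.prod ν) (μ'.prod ν) :=
  (h1 n hn).prod (h2 n hn)

/-- from a law which is not singular to the joining -/
lemma exists_data (he' : Erg S μ') (he : Erg S μ)
    (hν : ∀ n ∈ S, MeasurePreserving (fun x : T => n • x) ν ν)
    (hns : ¬ ((μ'.prod ν).map (fun z : T × T => z.1 + z.2)) ⟂ₘ μ) :
    ∃ A c, Data S μ' μ ν A c := by
  set P := μ'.prod ν with hP
  have hD : ∀ n ∈ S, MeasurePreserving (fun z : T × T => (n • z.1, n • z.2)) P P :=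
    diag_mp (S := S) he'.inv hν
  have hρ : ∀ n ∈ S, MeasurePreserving (fun x : T => n • x) (P.map fun z : T × T => z.1 + z.2)
      (P.map fun z : T × T => z.1 + z.2) := by
    intro n hn
    refine ⟨meas_smul n, ?_⟩
    rw [Measure.map_map (meas_smul n) sum_meas]
    conv_rhs => rw [← (hD n hn).map_eq, Measure.map_map sum_meas (hD n hn).measurable]
    congr 1
    ext z
    exact (smul_add n z.1 z.2)
  have hpm : IsProbabilityMeasure (P.map fun z : T × T => z.1 + z.2) :=
    Measure.isProbabilityMeasure_map sum_meas.aemeasurable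
  obtain ⟨E, c, hE, hc0, hc1, hres, hEinv⟩ := he.split _ hρ hns
  refine ⟨(fun z : T × T => z.1 + z.2) ⁻¹' E, c, he', he, hν, sum_meas hE, fun n hn => ?_, hc0, ?_,
    ?_⟩
  · have h5 := ae_of_ae_map sum_meas.aemeasurable (hEinv n hn)
    filter_upwards [h5] with z hz
    rw [mem_preimage, mem_preimage, ← smul_add]
    exact hz
  · have h1 := congrArg (fun m : Measure T => m univ) hres
    simp only [Measure.restrict_apply_univ, Measure.smul_apply, measure_univ, smul_eq_mul,
      mul_one] at h1
    rw [← h1]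
    exact prob_le_one
  · rw [← Measure.restrict_map sum_meas hE, hres]

namespace Data

lemma c_eq (d : Data S μ' μ ν A c) : c = (μ'.prod ν) A := by
  have h1 := congrArg (fun m : Measure T => m univ) d.law
  simp only [Measure.smul_apply, measure_univ, smul_eq_mul, mul_one] at h1
  rw [Measure.map_apply sum_meas MeasurableSet.univ, preimage_univ,
    Measure.restrict_apply_univ] at h1
  exact h1.symm

/-- the law of the first coordinate on an invariant set -/
lemma fst_law (d : Data S μ' μ ν A c) {B : Set (T × T)} (hB : MeasurableSet B)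
    (hinv : ∀ n ∈ S, ∀ᵐ z ∂(μ'.prod ν), ((n • z.1, n • z.2) ∈ B ↔ z ∈ B)) :
    ((μ'.prod ν).restrict B).map Prod.fst = (μ'.prod ν) B • μ' := by
  set P := μ'.prod ν with hP
  have h1 : ∀ n ∈ S, MeasurePreserving (fun x : T => n • x) ((P.restrict B).map Prod.fst)
      ((P.restrict B).map Prod.fst) := by
    intro n hn
    have h2 := mp_restrict (diag_mp d.erg'.inv d.inv n hn) hB (hinv n hn)
    refine ⟨meas_smul n, ?_⟩
    rw [Measure.map_map (meas_smul n) measurable_fst]
    conv_rhs => rw [← h2.map_eq, Measure.map_map measurable_fst h2.measurable]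
    rfl
  have hle : (P.restrict B).map Prod.fst ≤ μ' := by
    have h2 : P.map Prod.fst = μ' := by
      rw [hP, ← Measure.fst, Measure.fst_prod]
    conv_rhs => rw [← h2]
    exact Measure.map_mono Measure.restrict_le_self measurable_fst
  rw [d.erg'.of_le hle h1]
  congr 1
  rw [Measure.map_apply measurable_fst MeasurableSet.univ, preimage_univ,
    Measure.restrict_apply_univ]

/-- the law of the sum on an invariant subset of `A` -/
lemma sum_law (d : Data S μ' μ ν A c) {B : Set (T × T)} (hB : MeasurableSet B) (hBA : B ⊆ A)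
    (hinv : ∀ n ∈ S, ∀ᵐ z ∂(μ'.prod ν), ((n • z.1, n • z.2) ∈ B ↔ z ∈ B)) :
    ((μ'.prod ν).restrict B).map (fun z => z.1 + z.2) = (μ'.prod ν) B • μ := by
  set P := μ'.prod ν with hP
  have h1 : ∀ n ∈ S, MeasurePreserving (fun x : T => n • x)
      ((P.restrict B).map (fun z => z.1 + z.2)) ((P.restrict B).map (fun z => z.1 + z.2)) := by
    intro n hn
    have h2 := mp_restrict (diag_mp d.erg'.inv d.inv n hn) hB (hinv n hn)
    refine ⟨meas_smul n, ?_⟩
    rw [Measure.map_map (meas_smul n) sum_meas]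
    conv_rhs => rw [← h2.map_eq, Measure.map_map sum_meas h2.measurable]
    congr 1
    ext z
    exact (smul_add n z.1 z.2)
  have hle : (P.restrict B).map (fun z => z.1 + z.2) ≤ μ := by
    refine (Measure.map_mono (Measure.restrict_mono hBA le_rfl) sum_meas).trans ?_
    rw [d.law]
    intro s
    rw [Measure.smul_apply, smul_eq_mul]
    exact mul_le_of_le_one_left zero_le d.c1
  rw [d.erg.of_le hle h1]
  congr 1
  rw [Measure.map_apply sum_meas MeasurableSet.univ, preimage_univ,
    Measure.restrict_apply_univ]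

/-- invariant sets of second coordinates -/
lemma Zinv (d : Data S μ' μ ν A c) {Z : Set T}
    (hinv : ∀ n ∈ S, ∀ᵐ y ∂ν, (n • y ∈ Z ↔ y ∈ Z)) :
    ∀ n ∈ S, ∀ᵐ z ∂(μ'.prod ν), ((n • z.1, n • z.2) ∈ A ∩ Prod.snd ⁻¹' Z ↔
      z ∈ A ∩ Prod.snd ⁻¹' Z) := by
  intro n hn
  have h1 : ∀ᵐ z ∂(μ'.prod ν), (n • z.2 ∈ Z ↔ z.2 ∈ Z) :=
    Measure.quasiMeasurePreserving_snd.ae (hinv n hn)
  filter_upwards [d.Ainv n hn, h1] with z h2 h3
  simp only [mem_inter_iff, mem_preimage]
  rw [h2, h3]

end Data

end Q123.CW
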