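import Pool.Agent.Q123.CW.Comp

/-!
The mass of the weak limits on the slices.
-/

set_option autoImplicit false
set_option linter.unusedSectionVars false

open MeasureTheory Filter Topology Set
open scoped ENNReal ComplexConjugate

namespace Q123.CW

open Q123.CV

variable {S : Set ℕ} {μ' μ ν : Measure T} [IsProbabilityMeasure μ'] [IsProbabilityMeasure μ]
  [IsProbabilityMeasure ν] {A : Set (T × T)} {c : ℝ≥0∞} {U : Ultrafilter ℕ} {p : ℕ}
  {θ' θ φ : ℤ → T → ℂ}

/-- the mass of the weak limit on a slice -/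
noncomputable def G (μ' : Measure T) (A : Set (T × T)) (θ' : ℤ → T → ℂ) (n : ℤ) (y : T) : ℝ :=
  ∫ x, ind A (x, y) * ‖θ' n x‖ ^ 2 ∂μ'

/-- the mean of the quotient on a slice -/
noncomputable def Gm (μ' : Measure T) (A : Set (T × T)) (θ' : ℤ → T → ℂ) (p : ℕ) (n : ℤ) (m : ℕ)
    (y : T) : ℂ :=
  ∫ x, (ind A (x, y) : ℂ) * (e (n * (p : ℤ) ^ m) x * conj (θ' n x)) ∂μ'

lemma sq_le (h : WLs μ' U p θ') (n : ℤ) (x : T) : ‖θ' n x‖ ^ 2 ≤ 1 :=
  pow_le_one₀ (norm_nonneg _) ((h n).2.1 x)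

lemma G_int (hA : MeasurableSet A) (h : WLs μ' U p θ') (n : ℤ) (y : T) :
    Integrable (fun x => ind A (x, y) * ‖θ' n x‖ ^ 2) μ' :=
  int_bdd ((ind_slice hA y).mul ((h n).1.norm.pow_const 2)) (C := 1) fun x => by
    rw [Real.norm_of_nonneg (mul_nonneg (ind_nonneg _) (by positivity))]
    exact mul_le_one₀ (ind_le_one _) (by positivity) (sq_le h n x)

lemma G_nonneg (n : ℤ) (y : T) : 0 ≤ G μ' A θ' n y :=
  integral_nonneg fun x => mul_nonneg (ind_nonneg _) (by positivity)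

lemma G_meas (hA : MeasurableSet A) (h : WLs μ' U p θ') (n : ℤ) : Measurable (G μ' A θ' n) := by
  have h1 : StronglyMeasurable fun q : T × T => ind A (q.1, q.2) * ‖θ' n q.1‖ ^ 2 := by
    refine Measurable.stronglyMeasurable ?_
    exact (ind_meas hA).mul (((h n).1.comp measurable_fst).norm.pow_const 2)
  exact (StronglyMeasurable.integral_prod_left' (μ := μ') h1).measurable

lemma Gm_meas (hA : MeasurableSet A) (h : WLs μ' U p θ') (n : ℤ) (m : ℕ) :
    Measurable (Gm μ' A θ' p n m) := by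
  have h1 : StronglyMeasurable fun q : T × T =>
      (ind A (q.1, q.2) : ℂ) * (e (n * (p : ℤ) ^ m) q.1 * conj (θ' n q.1)) := by
    refine Measurable.stronglyMeasurable ?_
    exact (Complex.measurable_ofReal.comp (ind_meas hA)).mul
      (((e_meas _).comp measurable_fst).mul (conj_meas ((h n).1.comp measurable_fst)))
  exact (StronglyMeasurable.integral_prod_left' (μ := μ') h1).measurable

lemma G_lip (hA : MeasurableSet A) (h : WLs μ' U p θ') (n : ℤ) (y z : T) :
    |G μ' A θ' n y - G μ' A θ' n z| ≤ rho μ' A y z := by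
  unfold G rho
  rw [← integral_sub (G_int hA h n y) (G_int hA h n z), ← Real.norm_eq_abs]
  refine (norm_integral_le_integral_norm _).trans ?_
  refine integral_mono ((G_int hA h n y).sub (G_int hA h n z)).norm
    ((ind_slice_int hA y).sub (ind_slice_int hA z)).norm fun x => ?_
  simp only
  rw [← sub_mul, norm_mul, Real.norm_of_nonneg (show 0 ≤ ‖θ' n x‖ ^ 2 by positivity)]
  exact mul_le_of_le_one_right (norm_nonneg _) (sq_le h n x)

lemma Gm_fun_int (hA : MeasurableSet A) (h : WLs μ' U p θ') (n : ℤ) (m : ℕ) (y : T) :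
    Integrable (fun x => (ind A (x, y) : ℂ) * (e (n * (p : ℤ) ^ m) x * conj (θ' n x))) μ' :=
  int_bdd ((Complex.measurable_ofReal.comp (ind_slice hA y)).mul
    ((e_meas _).mul (conj_meas (h n).1))) (C := 1) fun x => by
    change ‖(ind A (x, y) : ℂ) * (e (n * (p : ℤ) ^ m) x * conj (θ' n x))‖ ≤ 1
    rw [norm_mul, norm_mul, e_norm, _root_.one_mul, RCLike.norm_conj, Complex.norm_real,
      Real.norm_of_nonneg (ind_nonneg _)]
    exact mul_le_one₀ (ind_le_one _) (norm_nonneg _) ((h n).2.1 x)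

lemma Gm_lip (hA : MeasurableSet A) (h : WLs μ' U p θ') (n : ℤ) (m : ℕ) (y z : T) :
    ‖Gm μ' A θ' p n m y - Gm μ' A θ' p n m z‖ ≤ rho μ' A y z := by
  unfold Gm rho
  rw [← integral_sub (Gm_fun_int hA h n m y) (Gm_fun_int hA h n m z)]
  refine (norm_integral_le_integral_norm _).trans ?_
  refine integral_mono ((Gm_fun_int hA h n m y).sub (Gm_fun_int hA h n m z)).norm
    ((ind_slice_int hA y).sub (ind_slice_int hA z)).norm fun x => ?_
  simp only
  rw [← sub_mul, norm_mul, ← Complex.ofReal_sub, Complex.norm_real]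
  refine mul_le_of_le_one_right (norm_nonneg _) ?_
  rw [norm_mul, e_norm, _root_.one_mul, RCLike.norm_conj]
  exact (h n).2.1 x

lemma Gm_tendsto (hA : MeasurableSet A) (h : WLs μ' U p θ') (n : ℤ) (y : T) :
    Tendsto (fun m => Gm μ' A θ' p n m y) U (𝓝 (G μ' A θ' n y : ℂ)) := by
  have hm : Measurable fun x => (ind A (x, y) : ℂ) * conj (θ' n x) :=
    (Complex.measurable_ofReal.comp (ind_slice hA y)).mul (conj_meas (h n).1)
  have h1 := (h n).2.2 (fun x => (ind A (x, y) : ℂ) * conj (θ' n x)) 1 hm (fun x => by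
    rw [norm_mul, RCLike.norm_conj, Complex.norm_real, Real.norm_of_nonneg (ind_nonneg _)]
    exact mul_le_one₀ (ind_le_one _) (norm_nonneg _) ((h n).2.1 x))
  have h2 : ∫ x, θ' n x * ((ind A (x, y) : ℂ) * conj (θ' n x)) ∂μ' = (G μ' A θ' n y : ℂ) := by
    unfold G
    rw [← integral_complex_ofReal]
    congr 1
    ext x
    have : θ' n x * ((ind A (x, y) : ℂ) * conj (θ' n x)) =
        (ind A (x, y) : ℂ) * (θ' n x * conj (θ' n x)) := by ring
    rw [this, Complex.mul_conj, Complex.normSq_eq_norm_sq]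
    push_cast
    rfl
  rw [h2] at h1
  refine h1.congr fun m => ?_
  unfold Gm
  congr 1
  ext x
  ring

lemma G_smul (d : Data S μ' μ ν A c) (h : WLs μ' U p θ') {t : ℕ} (ht : t ∈ S) (n : ℤ) :
    ∀ᵐ y ∂ν, G μ' A θ' n (t • y) = G μ' A θ' (t * n) y := by
  filter_upwards [slice_smul d ht] with y hy
  have hm := d.erg'.inv t ht
  have hfm : Measurable fun x => ind A (x, t • y) * ‖θ' n x‖ ^ 2 :=
    (ind_slice d.meas _).mul ((h n).1.norm.pow_const 2)
  have h1 : G μ' A θ' n (t • y) = ∫ x, ind A (t • x, t • y) * ‖θ' n (t • x)‖ ^ 2 ∂μ' := by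
    unfold G
    conv_lhs => rw [← hm.map_eq]
    exact integral_map hm.measurable.aemeasurable hfm.aestronglyMeasurable
  rw [h1]
  unfold G
  refine integral_congr_ae ?_
  filter_upwards [hy, h.smul hm n] with x h2 h3
  rw [h2, h3]

lemma G_total (d : Data S μ' μ ν A c) (ht : Twin μ' μ) (h' : WLs μ' U p θ') (h : WLs μ U p θ)
    (n : ℤ) : ∫ y, G μ' A θ' n y ∂ν = c.toReal * ∫ x, ‖θ n x‖ ^ 2 ∂μ := by
  have h1 := d.fst_law d.meas d.Ainv
  rw [← d.c_eq] at h1
  have h2 : ∫ z in A, ‖θ' n z.1‖ ^ 2 ∂(μ'.prod ν) = c.toReal • ∫ x, ‖θ' n x‖ ^ 2 ∂μ' :=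
    int_coord measurable_fst h1 (F := fun y => ‖θ' n y‖ ^ 2)
      ((h' n).1.norm.pow_const 2).stronglyMeasurable
  rw [← twin_norm ht (h' n) (h n), ← smul_eq_mul, ← h2, ← integral_indicator d.meas]
  have h3 : (A.indicator fun z : T × T => ‖θ' n z.1‖ ^ 2) =
      fun z => ind A z * ‖θ' n z.1‖ ^ 2 := by
    ext z
    unfold ind
    by_cases hz : z ∈ A
    · rw [indicator_of_mem hz, indicator_of_mem hz, _root_.one_mul]
    · rw [indicator_of_notMem hz, indicator_of_notMem hz, zero_mul]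
  rw [h3]
  have hi : Integrable (fun z : T × T => ind A z * ‖θ' n z.1‖ ^ 2) (μ'.prod ν) :=
    int_bdd ((ind_meas d.meas).mul (((h' n).1.comp measurable_fst).norm.pow_const 2)) (C := 1)
      fun z => by
        change ‖ind A z * ‖θ' n z.1‖ ^ 2‖ ≤ 1
        rw [Real.norm_of_nonneg (mul_nonneg (ind_nonneg _) (by positivity))]
        exact mul_le_one₀ (ind_le_one _) (by positivity) (sq_le h' n _)
  rw [integral_prod_symm _ hi]
  rfl

lemma G_one (d : Data S μ' μ ν A c) (ht : Twin μ' μ) (h' : WLs μ' U p θ') (h : WLs μ U p θ)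
    (hφ : WLs ν U p φ) (n : ℤ) : ∀ᵐ y ∂ν, G μ' A θ' n y ≠ 0 → y ∈ one φ n := by
  have h1 := (ae_restrict_iff' d.meas).1 (d.eq_case ht (h' n) (h n) (hφ n))
  have h2 : ∀ᵐ z ∂(μ'.prod ν), z ∈ A → (θ' n z.1 = 0 ∨ ‖φ n z.2‖ = 1) := by
    filter_upwards [h1] with z hz hzA
    exact (hz hzA).2
  have h3 := ae_swap h2
  filter_upwards [h3] with y hy hG
  by_contra hcon
  apply hG
  unfold G
  refine integral_eq_zero_of_ae ?_
  filter_upwards [hy] with x hx
  by_cases hxA : (x, y) ∈ A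
  · rcases hx hxA with h4 | h4
    · rw [h4]; simp
    · exact absurd h4 hcon
  · unfold ind
    rw [indicator_of_notMem hxA]; simp

end Q123.CW
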