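import Pool.Agent.Q123.CW.Weak

/-!
Weak limits of products of characters of two variables.
-/

set_option autoImplicit false

open MeasureTheory Filter Topology Set
open scoped ENNReal ComplexConjugate BoundedContinuousFunction

namespace Q123.CW

open Q123.CV

/-- approximation by trigonometric polynomials in two variables -/
lemma trig2 (f : C(T × T, ℂ)) {ε : ℝ} (hε : 0 < ε) :
    ∃ (M : Finset (Fin 2 → ℤ)) (c : (Fin 2 → ℤ) → ℂ), ∀ z : T × T,
      ‖f z - ∑ n ∈ M, c n * (e (n 0) z.1 * e (n 1) z.2)‖ ≤ ε := by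
  obtain ⟨M, c, hc⟩ := trig (k := 2)
    ⟨fun x : Fin 2 → T => f (x 0, x 1), f.continuous.comp
      ((continuous_apply 0).prodMk (continuous_apply 1))⟩ hε
  refine ⟨M, c, fun z => ?_⟩
  have h1 := hc ![z.1, z.2]
  simp only [ContinuousMap.coe_mk, Fin.prod_univ_two, Matrix.cons_val_zero,
    Matrix.cons_val_one] at h1
  exact h1

lemma tensor2 {μ ν : Measure T} [IsProbabilityMeasure μ] [IsProbabilityMeasure ν]
    {U : Ultrafilter ℕ} {b b' : ℕ → ℤ} {θ φ : T → ℂ} (hθ : WL μ U b θ) (hφ : WL ν U b' φ)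
    {H : T × T → ℂ} (hH : Integrable H (μ.prod ν)) :
    Tendsto (fun m => ∫ z, (e (b m) z.1 * e (b' m) z.2) * H z ∂(μ.prod ν)) U
      (𝓝 (∫ z, (θ z.1 * φ z.2) * H z ∂(μ.prod ν))) := by
  classical
  set P := μ.prod ν with hP
  have hFm : ∀ m, Measurable (fun z : T × T => e (b m) z.1 * e (b' m) z.2) := fun m =>
    ((e_meas _).comp measurable_fst).mul ((e_meas _).comp measurable_snd)
  have hF1 : ∀ m (z : T × T), ‖e (b m) z.1 * e (b' m) z.2‖ ≤ 1 := fun m z => by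
    rw [norm_mul, e_norm, e_norm, one_mul]
  have hGm : Measurable (fun z : T × T => θ z.1 * φ z.2) :=
    (hθ.1.comp measurable_fst).mul (hφ.1.comp measurable_snd)
  have hG1 : ∀ z : T × T, ‖θ z.1 * φ z.2‖ ≤ 1 := fun z => by
    rw [norm_mul]
    exact mul_le_one₀ (hθ.2.1 _) (norm_nonneg _) (hφ.2.1 _)
  -- characters
  have hpoly : ∀ (M : Finset (Fin 2 → ℤ)) (c : (Fin 2 → ℤ) → ℂ),
      Tendsto (fun m => ∫ z, (e (b m) z.1 * e (b' m) z.2) *
        (∑ n ∈ M, c n * (e (n 0) z.1 * e (n 1) z.2)) ∂P) U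
      (𝓝 (∫ z, (θ z.1 * φ z.2) * (∑ n ∈ M, c n * (e (n 0) z.1 * e (n 1) z.2)) ∂P)) := by
    intro M c
    have h1 : ∀ (F1 F2 : T → ℂ), Measurable F1 → Measurable F2 → (∀ x, ‖F1 x‖ ≤ 1) →
        (∀ x, ‖F2 x‖ ≤ 1) →
        ∫ z, (F1 z.1 * F2 z.2) * (∑ n ∈ M, c n * (e (n 0) z.1 * e (n 1) z.2)) ∂P =
        ∑ n ∈ M, c n * ((∫ x, F1 x * e (n 0) x ∂μ) * (∫ y, F2 y * e (n 1) y ∂ν)) := by
      intro F1 F2 hF1m hF2m hF1b hF2b
      have h2 : ∀ n : Fin 2 → ℤ, Integrable (fun z : T × T =>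
          c n * ((F1 z.1 * e (n 0) z.1) * (F2 z.2 * e (n 1) z.2))) P := fun n =>
        Integrable.const_mul (int_bdd
          (((hF1m.comp measurable_fst).mul ((e_meas _).comp measurable_fst)).mul
            ((hF2m.comp measurable_snd).mul ((e_meas _).comp measurable_snd))) (C := 1)
          fun z => by
            change ‖(F1 z.1 * e (n 0) z.1) * (F2 z.2 * e (n 1) z.2)‖ ≤ 1
            rw [norm_mul, norm_mul, norm_mul, e_norm, e_norm, mul_one, mul_one]
            exact mul_le_one₀ (hF1b _) (norm_nonneg _) (hF2b _)) _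
      simp_rw [Finset.mul_sum]
      have e1 : ∀ z : T × T, ∑ n ∈ M, F1 z.1 * F2 z.2 * (c n * (e (n 0) z.1 * e (n 1) z.2)) =
          ∑ n ∈ M, c n * ((F1 z.1 * e (n 0) z.1) * (F2 z.2 * e (n 1) z.2)) := fun z =>
        Finset.sum_congr rfl fun n _ => by ring
      simp_rw [e1]
      rw [integral_finsetSum _ fun n _ => h2 n]
      refine Finset.sum_congr rfl fun n _ => ?_
      rw [integral_const_mul]
      congr 1
      exact integral_prod_mul (fun x => F1 x * e (n 0) x) (fun y => F2 y * e (n 1) y)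
    rw [h1 θ φ hθ.1 hφ.1 hθ.2.1 hφ.2.1]
    have h3 : Tendsto (fun m => ∑ n ∈ M, c n * ((∫ x, e (b m) x * e (n 0) x ∂μ) *
        (∫ y, e (b' m) y * e (n 1) y ∂ν))) U
        (𝓝 (∑ n ∈ M, c n * ((∫ x, θ x * e (n 0) x ∂μ) * (∫ y, φ y * e (n 1) y ∂ν)))) :=
      tendsto_finsetSum _ fun n _ => Tendsto.const_mul _
        ((hθ.2.2 _ 1 (e_meas _) fun x => (e_norm _ x).le).mul
          (hφ.2.2 _ 1 (e_meas _) fun x => (e_norm _ x).le))
    refine h3.congr fun m => ?_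
    rw [h1 _ _ (e_meas _) (e_meas _) (fun x => (e_norm _ x).le) (fun x => (e_norm _ x).le)]
  -- approximation
  rw [Metric.tendsto_nhds]
  intro ε hε
  obtain ⟨g, hg1, hg2⟩ := hH.exists_boundedContinuous_integral_sub_le (ε := ε / 8) (by positivity)
  obtain ⟨M, c, hc⟩ := trig2 ⟨g, g.continuous⟩ (ε := ε / 8) (by positivity)
  set Q : T × T → ℂ := fun z => ∑ n ∈ M, c n * (e (n 0) z.1 * e (n 1) z.2) with hQ
  have hQm : Measurable Q := by
    refine Finset.measurable_sum _ fun n _ => Measurable.const_mul ?_ _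
    exact ((e_meas _).comp measurable_fst).mul ((e_meas _).comp measurable_snd)
  have hQi : Integrable Q P := by
    refine int_bdd hQm (C := ∑ n ∈ M, ‖c n‖) fun x => ?_
    refine (norm_sum_le _ _).trans (Finset.sum_le_sum fun n _ => ?_)
    rw [norm_mul, norm_mul, e_norm, e_norm, mul_one, mul_one]
  have hdist : ∫ x, ‖H x - Q x‖ ∂P ≤ ε / 4 := by
    have h1 : ∀ x, ‖H x - Q x‖ ≤ ‖H x - g x‖ + ε / 8 := by
      intro x
      have h2 := hc x
      have h3 : H x - Q x = (H x - g x) + (g x - Q x) := by ring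
      rw [h3]
      exact (norm_add_le _ _).trans (add_le_add le_rfl h2)
    have hi1 : Integrable (fun x => ‖H x - g x‖) P := (hH.sub hg2).norm
    calc ∫ x, ‖H x - Q x‖ ∂P ≤ ∫ x, (‖H x - g x‖ + ε / 8) ∂P :=
          integral_mono (hH.sub hQi).norm (hi1.add (integrable_const _)) h1
      _ = ∫ x, ‖H x - g x‖ ∂P + ε / 8 := by
          rw [integral_add hi1 (integrable_const _)]
          simp
      _ ≤ ε / 4 := by linarith
  have hcomp : ∀ (F : T × T → ℂ), Measurable F → (∀ x, ‖F x‖ ≤ 1) →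
      ‖∫ x, F x * H x ∂P - ∫ x, F x * Q x ∂P‖ ≤ ε / 4 := by
    intro F hF hF1
    have hi : ∀ G : T × T → ℂ, Integrable G P → Integrable (fun x => F x * G x) P :=
      fun G hG => hG.bdd_mul hF.aestronglyMeasurable (Eventually.of_forall hF1)
    rw [← integral_sub (hi _ hH) (hi _ hQi)]
    refine (norm_integral_le_integral_norm _).trans (le_trans ?_ hdist)
    refine integral_mono ((hi _ hH).sub (hi _ hQi)).norm (hH.sub hQi).norm fun x => ?_
    simp only
    rw [← mul_sub, norm_mul]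
    exact mul_le_of_le_one_left (norm_nonneg _) (hF1 x)
  have h5 := (Metric.tendsto_nhds.1 (hpoly M c)) (ε / 4) (by positivity)
  filter_upwards [h5] with m hm
  rw [dist_eq_norm] at hm ⊢
  have h6 := hcomp _ (hFm m) (hF1 m)
  have h7 := hcomp _ hGm hG1
  have h8 : ∫ z, (e (b m) z.1 * e (b' m) z.2) * H z ∂P - ∫ z, (θ z.1 * φ z.2) * H z ∂P =
      (∫ z, (e (b m) z.1 * e (b' m) z.2) * H z ∂P - ∫ z, (e (b m) z.1 * e (b' m) z.2) * Q z ∂P) +
      (∫ z, (e (b m) z.1 * e (b' m) z.2) * Q z ∂P - ∫ z, (θ z.1 * φ z.2) * Q z ∂P) -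
      (∫ z, (θ z.1 * φ z.2) * H z ∂P - ∫ z, (θ z.1 * φ z.2) * Q z ∂P) := by ring
  rw [h8]
  refine (norm_sub_le _ _).trans_lt ?_
  have h9 := norm_add_le
    (∫ z, (e (b m) z.1 * e (b' m) z.2) * H z ∂P - ∫ z, (e (b m) z.1 * e (b' m) z.2) * Q z ∂P)
    (∫ z, (e (b m) z.1 * e (b' m) z.2) * Q z ∂P - ∫ z, (θ z.1 * φ z.2) * Q z ∂P)
  linarith

end Q123.CW
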