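import Pool.Agent.Q123.CW.Ident

/-!
Weak limits of modulus one: invariance, powers and the gap inequality.
-/

set_option autoImplicit false
set_option linter.unusedSectionVars false

open MeasureTheory Filter Topology Set
open scoped ENNReal ComplexConjugate

namespace Q123.CW

open Q123.CV

lemma inv_of_sub {X : Type*} [MeasurableSpace X] {P : Measure X} [IsFiniteMeasure P] {f : X → X}
    (hf : MeasurePreserving f P P) {C : Set X} (hC : MeasurableSet C)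
    (h : ∀ᵐ z ∂P, z ∈ C → f z ∈ C) : ∀ᵐ z ∂P, (f z ∈ C ↔ z ∈ C) := by
  have h1 : C =ᵐ[P] (f ⁻¹' C) := by
    refine ae_eq_of_ae_subset_of_measure_ge h ?_ hC.nullMeasurableSet (measure_ne_top _ _)
    rw [hf.measure_preimage hC.nullMeasurableSet]
  filter_upwards [h1] with z hz
  exact (Iff.of_eq hz).symm

lemma inv_of_sup {X : Type*} [MeasurableSpace X] {P : Measure X} [IsFiniteMeasure P] {f : X → X}
    (hf : MeasurePreserving f P P) {C : Set X} (hC : MeasurableSet C)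
    (h : ∀ᵐ z ∂P, f z ∈ C → z ∈ C) : ∀ᵐ z ∂P, (f z ∈ C ↔ z ∈ C) := by
  have h1 : (f ⁻¹' C) =ᵐ[P] C := by
    refine ae_eq_of_ae_subset_of_measure_ge h ?_ (hf.measurable hC).nullMeasurableSet
      (measure_ne_top _ _)
    rw [hf.measure_preimage hC.nullMeasurableSet]
  filter_upwards [h1] with z hz
  exact Iff.of_eq hz

/-- the gap inequality for unimodular functions -/
lemma gap_fun {κ : Measure T} [IsFiniteMeasure κ] {p : ℕ} (hp : 2 ≤ p)
    (hinv : MeasurePreserving (fun x : T => p • x) κ κ) {h : T → ℂ} (hm : Measurable h)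
    (h1 : ∀ x, ‖h x‖ ≤ 1) (hpow : ∀ᵐ x ∂κ, ‖h x‖ = 1 ∧ h (p • x) = h x ^ p) :
    ∫ x, ‖1 - h x‖ ∂κ ≤ p / 2 * ∫ x, ‖1 - h x‖ ^ 2 ∂κ := by
  have hp' : (2 : ℝ) ≤ p := by exact_mod_cast hp
  have hsm : Measurable fun x => ‖1 - h x‖ := (measurable_const.sub hm).norm
  have hs2 : ∀ x, ‖1 - h x‖ ≤ 2 := fun x => by
    refine (norm_sub_le _ _).trans ?_
    rw [norm_one]; linarith [h1 x]
  have hi1 : Integrable (fun x => ‖1 - h x‖) κ :=
    int_bdd hsm (C := 2) fun x => by rw [norm_norm]; exact hs2 x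
  have hi2 : Integrable (fun x => ‖1 - h x‖ ^ 2) κ :=
    int_bdd (hsm.pow_const 2) (C := 4) fun x => by
      rw [Real.norm_of_nonneg (by positivity)]
      nlinarith [hs2 x, norm_nonneg (1 - h x)]
  have h2 : ∫ x, ‖1 - h (p • x)‖ ∂κ = ∫ x, ‖1 - h x‖ ∂κ := by
    conv_rhs => rw [← hinv.map_eq]
    rw [integral_map hinv.measurable.aemeasurable hsm.aestronglyMeasurable]
  have h3 : ∀ᵐ x ∂κ, p * ‖1 - h x‖ - (p : ℝ) * (p - 1) / 2 * ‖1 - h x‖ ^ 2 ≤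
      ‖1 - h (p • x)‖ := by
    filter_upwards [hpow] with x hx
    rw [hx.2]
    have h3 := pow_far hx.1 p
    have h4 : ‖(p : ℂ) * (1 - h x)‖ ≤ ‖1 - h x ^ p‖ + ‖(1 - h x ^ p) - p * (1 - h x)‖ := by
      have := norm_sub_le (1 - h x ^ p) ((1 - h x ^ p) - p * (1 - h x))
      rwa [sub_sub_cancel] at this
    rw [norm_mul, Complex.norm_natCast] at h4
    linarith
  have h4 : p * ∫ x, ‖1 - h x‖ ∂κ - (p : ℝ) * (p - 1) / 2 * ∫ x, ‖1 - h x‖ ^ 2 ∂κ ≤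
      ∫ x, ‖1 - h x‖ ∂κ := by
    refine le_trans ?_ (le_of_eq h2)
    rw [← integral_const_mul, ← integral_const_mul, ← integral_sub (hi1.const_mul _)
      (hi2.const_mul _)]
    refine integral_mono_ae ((hi1.const_mul _).sub (hi2.const_mul _)) ?_ h3
    exact int_bdd (hsm.comp (meas_smul p)) (C := 2) fun x => by rw [norm_norm]; exact hs2 _
  have h5 : (p - 1) * ∫ x, ‖1 - h x‖ ∂κ ≤ (p - 1) * (p / 2 * ∫ x, ‖1 - h x‖ ^ 2 ∂κ) := by linarith
  exact le_of_mul_le_mul_left h5 (by linarith)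

variable {S : Set ℕ} {ν : Measure T} [IsProbabilityMeasure ν] {U : Ultrafilter ℕ} {p : ℕ}
  {φ : ℤ → T → ℂ}

/-- weak limits of all characters along the powers of `p` -/
def WLs (ν : Measure T) (U : Ultrafilter ℕ) (p : ℕ) (φ : ℤ → T → ℂ) : Prop :=
  ∀ n : ℤ, WL ν U (fun m => n * (p : ℤ) ^ m) (φ n)

lemma WLs.exists (ν : Measure T) [IsProbabilityMeasure ν] (U : Ultrafilter ℕ) (p : ℕ) :
    ∃ φ, WLs ν U p φ := by
  choose φ hφ using fun n : ℤ => WL.exists ν U (fun m => n * (p : ℤ) ^ m)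
  exact ⟨φ, hφ⟩

lemma WLs.smul (h : WLs ν U p φ) {t : ℕ} (ht : MeasurePreserving (fun x : T => t • x) ν ν)
    (n : ℤ) : ∀ᵐ y ∂ν, φ (t * n) y = φ n (t • y) := by
  refine unique (h _) ?_
  have h1 := comp ht (h n)
  have h2 : (fun m : ℕ => (t : ℤ) * n * (p : ℤ) ^ m) = fun m : ℕ => (t : ℤ) * (n * (p : ℤ) ^ m) := by
    ext m; ring
  rw [h2]
  exact h1

/-- where the weak limit has modulus one -/
def one (φ : ℤ → T → ℂ) (n : ℤ) : Set T := {y | ‖φ n y‖ = 1}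

lemma WLs.one_meas (h : WLs ν U p φ) (n : ℤ) : MeasurableSet (one φ n) :=
  measurableSet_eq_fun (h n).1.norm measurable_const

lemma WLs.pow (h : WLs ν U p φ) (n : ℤ) (t : ℕ) :
    ∀ᵐ y ∂ν, y ∈ one φ n → φ (t * n) y = φ n y ^ t := by
  refine pow_strong (h n) (h.one_meas n) (fun y hy => hy) t ?_
  have h2 : (fun m : ℕ => (t : ℤ) * (n * (p : ℤ) ^ m)) = fun m : ℕ => (t : ℤ) * n * (p : ℤ) ^ m := by
    ext m; ring
  rw [h2]
  exact h _

lemma WLs.one_inv (h : WLs ν U p φ) {t : ℕ} (ht : MeasurePreserving (fun x : T => t • x) ν ν)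
    (n : ℤ) : ∀ᵐ y ∂ν, (t • y ∈ one φ n ↔ y ∈ one φ n) := by
  refine inv_of_sub ht (h.one_meas n) ?_
  filter_upwards [h.pow n t, h.smul ht n] with y h1 h2 hy
  change ‖φ n (t • y)‖ = 1
  rw [← h2, h1 hy, norm_pow]
  rw [show ‖φ n y‖ = 1 from hy, one_pow]

lemma WLs.one_mul (h : WLs ν U p φ) {t : ℕ} (ht : MeasurePreserving (fun x : T => t • x) ν ν)
    (n : ℤ) : ∀ᵐ y ∂ν, (y ∈ one φ (t * n) ↔ y ∈ one φ n) := by
  filter_upwards [h.one_inv ht n, h.smul ht n] with y h1 h2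
  rw [← h1]
  change ‖φ (t * n) y‖ = 1 ↔ ‖φ n (t • y)‖ = 1
  rw [h2]

/-- the quotient of a character by the weak limit -/
noncomputable def quo (φ : ℤ → T → ℂ) (p : ℕ) (n : ℤ) (m : ℕ) (y : T) : ℂ :=
  e (n * (p : ℤ) ^ m) y * conj (φ n y)

lemma WLs.quo_meas (h : WLs ν U p φ) (n : ℤ) (m : ℕ) : Measurable (quo φ p n m) :=
  (e_meas _).mul (conj_meas (h n).1)

lemma WLs.quo_le (h : WLs ν U p φ) (n : ℤ) (m : ℕ) (y : T) : ‖quo φ p n m y‖ ≤ 1 := by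
  unfold quo
  rw [norm_mul, e_norm, _root_.one_mul, RCLike.norm_conj]
  exact (h n).2.1 y

lemma quo_norm (n : ℤ) (m : ℕ) {y : T} (hy : y ∈ one φ n) : ‖quo φ p n m y‖ = 1 := by
  unfold quo
  rw [norm_mul, e_norm, _root_.one_mul, RCLike.norm_conj]
  exact hy

lemma WLs.quo_smul (h : WLs ν U p φ) {t : ℕ} (ht : MeasurePreserving (fun x : T => t • x) ν ν)
    (n : ℤ) (m : ℕ) : ∀ᵐ y ∂ν, y ∈ one φ n → quo φ p n m (t • y) = quo φ p n m y ^ t := by
  filter_upwards [h.pow n t, h.smul ht n] with y h1 h2 hy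
  unfold quo
  rw [← h2, h1 hy, e_nsmul, e_pow, map_pow, mul_pow]

lemma WLs.quo_mul (h : WLs ν U p φ) (n : ℤ) (t m : ℕ) :
    ∀ᵐ y ∂ν, y ∈ one φ n → quo φ p (t * n) m y = quo φ p n m y ^ t := by
  filter_upwards [h.pow n t] with y h1 hy
  unfold quo
  rw [h1 hy, mul_assoc, e_pow, map_pow, mul_pow]

/-- the mean square distance on an invariant set does not change under powers -/
lemma WLs.sq_pow (h : WLs ν U p φ) {t : ℕ} (ht : MeasurePreserving (fun x : T => t • x) ν ν)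
    (n : ℤ) (m : ℕ) {Z : Set T} (hZ : MeasurableSet Z) (hinv : ∀ᵐ y ∂ν, (t • y ∈ Z ↔ y ∈ Z))
    (hZ1 : ∀ᵐ y ∂ν, y ∈ Z → y ∈ one φ n) :
    ∫ y in Z, ‖1 - quo φ p n m y ^ t‖ ^ 2 ∂ν = ∫ y in Z, ‖1 - quo φ p n m y‖ ^ 2 ∂ν := by
  have h1 := mp_restrict ht hZ hinv
  have hqm : Measurable fun y => ‖1 - quo φ p n m y‖ ^ 2 :=
    (measurable_const.sub (h.quo_meas n m)).norm.pow_const 2
  have h2 : ∫ y in Z, ‖1 - quo φ p n m (t • y)‖ ^ 2 ∂ν = ∫ y in Z, ‖1 - quo φ p n m y‖ ^ 2 ∂ν := by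
    conv_rhs => rw [← h1.map_eq]
    rw [integral_map h1.measurable.aemeasurable hqm.aestronglyMeasurable]
  rw [← h2]
  refine setIntegral_congr_ae hZ ?_
  filter_upwards [h.quo_smul ht n m, hZ1] with y h3 h4 hy
  rw [h3 (h4 hy)]

end Q123.CW
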