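import Pool.Agent.Q123.CV.Strong

/-!
More on weak limits of characters: integrable test functions, uniqueness, composition with an
invariant multiplication, products.
-/

set_option autoImplicit false

open MeasureTheory Filter Topology Set
open scoped ENNReal ComplexConjugate

namespace Q123.CW

open Q123.CV

variable {μ : Measure T} {U : Ultrafilter ℕ} {b : ℕ → ℤ} {θ : T → ℂ}

lemma conj_meas {X : Type*} [MeasurableSpace X] {g : X → ℂ} (hg : Measurable g) :
    Measurable fun x => conj (g x) := Complex.continuous_conj.measurable.comp hg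

/-- integrable test functions -/
lemma l1 [IsProbabilityMeasure μ] (h : WL μ U b θ) {g : T → ℂ} (hg : Integrable g μ) :
    Tendsto (fun m => ∫ x, e (b m) x * g x ∂μ) U (𝓝 (∫ x, θ x * g x ∂μ)) := by
  rw [Metric.tendsto_nhds]
  intro ε hε
  obtain ⟨f, hf1, hf2⟩ := hg.exists_boundedContinuous_integral_sub_le (ε := ε / 4) (by positivity)
  have h1 := (Metric.tendsto_nhds.1 (h.2.2 f ‖f‖ f.continuous.measurable f.norm_coe_le_norm))
    (ε / 4) (by positivity)
  have hcomp : ∀ F : T → ℂ, Measurable F → (∀ x, ‖F x‖ ≤ 1) →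
      ‖∫ x, F x * g x ∂μ - ∫ x, F x * f x ∂μ‖ ≤ ε / 4 := by
    intro F hF hF1
    have hi : ∀ G : T → ℂ, Integrable G μ → Integrable (fun x => F x * G x) μ :=
      fun G hG => hG.bdd_mul hF.aestronglyMeasurable (Eventually.of_forall hF1)
    rw [← integral_sub (hi _ hg) (hi _ hf2)]
    refine (norm_integral_le_integral_norm _).trans (le_trans ?_ hf1)
    refine integral_mono ((hi _ hg).sub (hi _ hf2)).norm (hg.sub hf2).norm fun x => ?_
    simp only
    rw [← mul_sub, norm_mul]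
    exact mul_le_of_le_one_left (norm_nonneg _) (hF1 x)
  filter_upwards [h1] with m hm
  rw [dist_eq_norm] at hm ⊢
  have h6 := hcomp _ (e_meas (b m)) (fun x => (e_norm _ x).le)
  have h7 := hcomp _ h.1 h.2.1
  have h8 : ∫ x, e (b m) x * g x ∂μ - ∫ x, θ x * g x ∂μ =
      (∫ x, e (b m) x * g x ∂μ - ∫ x, e (b m) x * f x ∂μ) +
      (∫ x, e (b m) x * f x ∂μ - ∫ x, θ x * f x ∂μ) -
      (∫ x, θ x * g x ∂μ - ∫ x, θ x * f x ∂μ) := by ring
  rw [h8]
  refine (norm_sub_le _ _).trans_lt ?_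
  have h9 := norm_add_le (∫ x, e (b m) x * g x ∂μ - ∫ x, e (b m) x * f x ∂μ)
    (∫ x, e (b m) x * f x ∂μ - ∫ x, θ x * f x ∂μ)
  linarith

lemma sq_norm_int [IsProbabilityMeasure μ] {g : T → ℂ} (hg : Measurable g) {C : ℝ}
    (hC : ∀ x, ‖g x‖ ≤ C) : Integrable (fun x => ‖g x‖ ^ 2) μ :=
  int_bdd (hg.norm.pow_const 2) (C := C ^ 2) fun x => by
    rw [Real.norm_of_nonneg (by positivity)]
    exact pow_le_pow_left₀ (norm_nonneg _) (hC x) 2

/-- uniqueness of the weak limit -/
lemma unique [IsProbabilityMeasure μ] {θ' : T → ℂ} (h : WL μ U b θ) (h' : WL μ U b θ') :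
    ∀ᵐ x ∂μ, θ x = θ' x := by
  have hm : Measurable fun x => θ x - θ' x := h.1.sub h'.1
  have hb : ∀ x, ‖θ x - θ' x‖ ≤ 2 := fun x => by
    refine (norm_sub_le _ _).trans ?_
    linarith [h.2.1 x, h'.2.1 x]
  have hcb : ∀ x, ‖conj (θ x - θ' x)‖ ≤ 2 := fun x => by rw [RCLike.norm_conj]; exact hb x
  have h1 := tendsto_nhds_unique (h.2.2 (fun x => conj (θ x - θ' x)) 2 (conj_meas hm) hcb)
    (h'.2.2 (fun x => conj (θ x - θ' x)) 2 (conj_meas hm) hcb)
  have hi : ∀ F : T → ℂ, Measurable F → (∀ x, ‖F x‖ ≤ 1) →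
      Integrable (fun x => F x * conj (θ x - θ' x)) μ := fun F hF hF1 =>
    int_bdd (hF.mul (conj_meas hm)) (C := 2) fun x => by
      rw [norm_mul]
      exact (mul_le_mul (hF1 x) (hcb x) (norm_nonneg _) zero_le_one).trans (by norm_num)
  have h2 : ∫ x, (θ x - θ' x) * conj (θ x - θ' x) ∂μ = 0 := by
    have h3 := integral_sub (hi θ h.1 h.2.1) (hi θ' h'.1 h'.2.1)
    rw [h1, sub_self] at h3
    rw [← h3]
    congr 1
    ext x
    ring
  rw [sq_int] at h2
  have h3 : ∫ x, ‖θ x - θ' x‖ ^ 2 ∂μ = 0 := by exact_mod_cast h2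
  have h4 := (integral_eq_zero_iff_of_nonneg (μ := μ) (f := fun x => ‖θ x - θ' x‖ ^ 2)
    (fun x => by positivity) (sq_norm_int hm hb)).1 h3
  filter_upwards [h4] with x hx
  have h5 : ‖θ x - θ' x‖ ^ 2 = 0 := hx
  rw [← sub_eq_zero, ← norm_eq_zero]
  exact (pow_eq_zero_iff two_ne_zero).1 h5

open scoped InnerProductSpace in
/-- the adjoint of the composition with an invariant multiplication -/
lemma adjoint [IsProbabilityMeasure μ] {t : ℕ} (ht : MeasurePreserving (fun x : T => t • x) μ μ)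
    {g : T → ℂ} (hg : Measurable g) {C : ℝ} (hC : ∀ x, ‖g x‖ ≤ C) :
    ∃ K : T → ℂ, Integrable K μ ∧ ∀ F : T → ℂ, Measurable F → (∀ x, ‖F x‖ ≤ 1) →
      ∫ x, F (t • x) * g x ∂μ = ∫ x, F x * K x ∂μ := by
  have hmem : ∀ (g : T → ℂ) (C : ℝ), Measurable g → (∀ x, ‖g x‖ ≤ C) → MemLp g 2 μ :=
    fun g C hg hC => MemLp.of_bound hg.aestronglyMeasurable C (Eventually.of_forall hC)
  have hgc := hmem (fun x => conj (g x)) C (conj_meas hg) (fun x => by
    rw [RCLike.norm_conj]; exact hC x)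
  set G : Lp ℂ 2 μ := hgc.toLp _ with hG
  set V := Lp.compMeasurePreservingₗᵢ (E := ℂ) (p := 2) ℂ (fun x : T => t • x) ht with hV
  set Λ : Lp ℂ 2 μ →L[ℂ] ℂ := (innerSL ℂ G).comp V.toContinuousLinearMap with hΛ
  set k := (InnerProductSpace.toDual ℂ (Lp ℂ 2 μ)).symm Λ with hk
  have hki : ∀ f : Lp ℂ 2 μ, ⟪k, f⟫_ℂ = ⟪G, V f⟫_ℂ := fun f => InnerProductSpace.toDual_symm_apply
  have hkint : Integrable (fun x => conj (k x)) μ := by
    have h1 : MemLp k 2 μ := Lp.memLp k
    have h2 : Integrable k μ := h1.integrable (by norm_num)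
    exact (LinearIsometryEquiv.integrable_comp_iff Complex.conjLIE).2 h2
  refine ⟨fun x => conj (k x), hkint, fun F hF hF1 => ?_⟩
  have h1 := hki ((hmem F 1 hF hF1).toLp F)
  rw [L2.inner_def, L2.inner_def] at h1
  have h2 : ∫ x, ⟪k x, ((hmem F 1 hF hF1).toLp F) x⟫_ℂ ∂μ = ∫ x, F x * conj (k x) ∂μ := by
    refine integral_congr_ae ?_
    filter_upwards [(hmem F 1 hF hF1).coeFn_toLp] with x hx
    rw [hx, RCLike.inner_apply]
  have h3 : ∫ x, ⟪G x, (V ((hmem F 1 hF hF1).toLp F)) x⟫_ℂ ∂μ = ∫ x, F (t • x) * g x ∂μ := by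
    refine integral_congr_ae ?_
    have h4 := Lp.coeFn_compMeasurePreserving ((hmem F 1 hF hF1).toLp F) ht
    have h5 := ht.quasiMeasurePreserving.ae (hmem F 1 hF hF1).coeFn_toLp
    filter_upwards [hgc.coeFn_toLp, h4, h5] with x hx hx2 hx3
    rw [show G x = conj (g x) from hx, RCLike.inner_apply, Complex.conj_conj]
    rw [show (V ((hmem F 1 hF hF1).toLp F)) x = F (t • x) from hx2.trans hx3]
  rw [← h3, ← h2]
  exact h1.symm

/-- composition of a weak limit with an invariant multiplication -/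
lemma comp [IsProbabilityMeasure μ] {t : ℕ} (ht : MeasurePreserving (fun x : T => t • x) μ μ)
    (h : WL μ U b θ) : WL μ U (fun m => (t : ℤ) * b m) (fun x => θ (t • x)) := by
  refine ⟨h.1.comp (meas_smul t), fun x => h.2.1 _, fun g C hg hC => ?_⟩
  obtain ⟨K, hK, hK2⟩ := adjoint ht hg hC
  rw [hK2 θ h.1 h.2.1]
  refine (l1 h hK).congr fun m => ?_
  rw [← hK2 _ (e_meas (b m)) (fun x => (e_norm _ x).le)]
  congr 1
  ext x
  rw [e_nsmul]

/-- weak limits of a product of characters -/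
lemma pow_strong [IsProbabilityMeasure μ] (h : WL μ U b θ) {B : Set T} (hB : MeasurableSet B)
    (h1 : ∀ x ∈ B, ‖θ x‖ = 1) (t : ℕ) {ψ : T → ℂ} (hψ : WL μ U (fun m => (t : ℤ) * b m) ψ) :
    ∀ᵐ x ∂μ, x ∈ B → ψ x = θ x ^ t := by
  -- it suffices to test against bounded functions on `B`
  have hs := h.strong hB h1
  have hpow : ∀ (z w : ℂ), ‖z‖ ≤ 1 → ‖w‖ ≤ 1 → ∀ t : ℕ, ‖z ^ t - w ^ t‖ ≤ t * ‖z - w‖ := by
    intro z w hz hw t
    induction t with
    | zero => simp
    | succ t ih =>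
      have e1 : z ^ (t + 1) - w ^ (t + 1) = z ^ t * (z - w) + (z ^ t - w ^ t) * w := by ring
      rw [e1]
      refine (norm_add_le _ _).trans ?_
      rw [norm_mul, norm_mul, norm_pow]
      have h2 : ‖z‖ ^ t * ‖z - w‖ ≤ ‖z - w‖ :=
        mul_le_of_le_one_left (norm_nonneg _) (pow_le_one₀ (norm_nonneg _) hz)
      have h3 : ‖z ^ t - w ^ t‖ * ‖w‖ ≤ ‖z ^ t - w ^ t‖ :=
        mul_le_of_le_one_right (norm_nonneg _) hw
      push_cast
      linarith
  have hlim : ∀ (g : T → ℂ) (C : ℝ), Measurable g → (∀ x, ‖g x‖ ≤ C) → (∀ x, x ∉ B → g x = 0) →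
      ∫ x, ψ x * g x ∂μ = ∫ x, θ x ^ t * g x ∂μ := by
    intro g C hg hC hgB
    have hC0 : 0 ≤ C := (norm_nonneg _).trans (hC 0)
    have h2 := hψ.2.2 g C hg hC
    refine tendsto_nhds_unique h2 ?_
    rw [Metric.tendsto_nhds]
    intro ε hε
    -- smallness of the mean square distance
    have hδ : 0 < (ε / (2 * (C * t + 1))) ^ 2 := by positivity
    filter_upwards [hs.eventually (gt_mem_nhds hδ)] with m hm
    rw [dist_eq_norm]
    have hi1 : Integrable (fun x => e (t * b m) x * g x) μ :=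
      int_bdd ((e_meas _).mul hg) (C := C) fun x => by
        rw [norm_mul, e_norm, one_mul]; exact hC x
    have hi2 : Integrable (fun x => θ x ^ t * g x) μ :=
      int_bdd ((h.1.pow_const t).mul hg) (C := C) fun x => by
        rw [norm_mul, norm_pow]
        exact (mul_le_of_le_one_left (norm_nonneg _) (pow_le_one₀ (norm_nonneg _) (h.2.1 x))).trans
          (hC x)
    rw [← integral_sub hi1 hi2]
    have hd2 : ∀ x, ‖e (b m) x - θ x‖ ≤ 2 := fun x => by
      refine (norm_sub_le _ _).trans ?_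
      rw [e_norm]; linarith [h.2.1 x]
    have hdm : Measurable fun x => ‖e (b m) x - θ x‖ := ((e_meas _).sub h.1).norm
    have hdi : Integrable (fun x => ‖e (b m) x - θ x‖) (μ.restrict B) :=
      int_bdd hdm (C := 2) fun x => by rw [norm_norm]; exact hd2 x
    have hdi2 : Integrable (fun x => ‖e (b m) x - θ x‖ ^ 2) (μ.restrict B) :=
      int_bdd (hdm.pow_const 2) (C := 4) fun x => by
        rw [Real.norm_of_nonneg (by positivity)]
        nlinarith [hd2 x, norm_nonneg (e (b m) x - θ x)]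
    have h3 : ‖∫ x, (e (t * b m) x * g x - θ x ^ t * g x) ∂μ‖ ≤
        ∫ x in B, C * t * ‖e (b m) x - θ x‖ ∂μ := by
      refine (norm_integral_le_integral_norm _).trans ?_
      rw [← integral_indicator hB]
      refine integral_mono (hi1.sub hi2).norm ((integrable_indicator_iff hB).2 (hdi.const_mul (C * t)))
        fun x => ?_
      simp only
      by_cases hx : x ∈ B
      · rw [indicator_of_mem hx, ← sub_mul, norm_mul, e_pow]
        calc ‖e (b m) x ^ t - θ x ^ t‖ * ‖g x‖ ≤ (t * ‖e (b m) x - θ x‖) * C := by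
              gcongr
              · exact hpow _ _ (e_norm _ _).le (h.2.1 x) t
              · exact hC x
          _ = _ := by ring
      · rw [indicator_of_notMem hx, hgB x hx, mul_zero, mul_zero, sub_zero, norm_zero]
    -- Cauchy-Schwarz
    set η : ℝ := ε / (2 * (C * t + 1)) with hη
    have hη0 : 0 < η := by positivity
    have h4 : ∫ x in B, ‖e (b m) x - θ x‖ ∂μ ≤ η := by
      have h5 : ∫ x in B, ‖e (b m) x - θ x‖ ∂μ ≤
          ∫ x in B, (‖e (b m) x - θ x‖ ^ 2 / (2 * η) + η / 2) ∂μ := by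
        refine integral_mono hdi ((hdi2.div_const _).add (integrable_const _)) fun x => ?_
        simp only
        have h6 := sq_nonneg (‖e (b m) x - θ x‖ - η)
        rw [div_add_div _ _ (by positivity) (by positivity), le_div_iff₀ (by positivity)]
        nlinarith
      rw [integral_add (hdi2.div_const _) (integrable_const _), integral_div, integral_const,
        smul_eq_mul] at h5
      have h6 : (μ.restrict B).real univ ≤ 1 := by
        rw [measureReal_restrict_apply_univ]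
        exact measureReal_le_one
      have h7 : (∫ x in B, ‖e (b m) x - θ x‖ ^ 2 ∂μ) / (2 * η) ≤ η ^ 2 / (2 * η) := by
        gcongr
      have h8 : η ^ 2 / (2 * η) = η / 2 := by field_simp
      have h9 : (μ.restrict B).real univ * (η / 2) ≤ 1 * (η / 2) := by gcongr
      linarith
    rw [integral_const_mul] at h3
    have h10 : C * t * ∫ x in B, ‖e (b m) x - θ x‖ ∂μ ≤ C * t * η := by gcongr
    have h11 : C * t * η < ε := by
      rw [hη]
      have h12 : 0 < C * t + 1 := by positivity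
      rw [mul_div_assoc', div_lt_iff₀ (by positivity)]
      nlinarith
    linarith
  -- uniqueness
  have hgm : Measurable (B.indicator fun x => conj (ψ x - θ x ^ t)) :=
    (conj_meas (hψ.1.sub (h.1.pow_const t))).indicator hB
  have hpb : ∀ x, ‖θ x ^ t‖ ≤ 1 := fun x => by
    rw [norm_pow]; exact pow_le_one₀ (norm_nonneg _) (h.2.1 x)
  have hsb : ∀ x, ‖ψ x - θ x ^ t‖ ≤ 2 := fun x => by
    refine (norm_sub_le _ _).trans ?_
    linarith [hψ.2.1 x, hpb x]
  have hgb : ∀ x, ‖B.indicator (fun x => conj (ψ x - θ x ^ t)) x‖ ≤ 2 := fun x => by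
    refine (norm_indicator_le_norm_self _ _).trans ?_
    rw [RCLike.norm_conj]; exact hsb x
  have h2 := hlim _ 2 hgm hgb (fun x hx => indicator_of_notMem hx _)
  have hi1 : Integrable (fun x => ψ x * B.indicator (fun x => conj (ψ x - θ x ^ t)) x) μ :=
    int_bdd (hψ.1.mul hgm) (C := 2) fun x => by
      rw [norm_mul]
      exact (mul_le_of_le_one_left (norm_nonneg _) (hψ.2.1 x)).trans (hgb x)
  have hi2 : Integrable (fun x => θ x ^ t * B.indicator (fun x => conj (ψ x - θ x ^ t)) x) μ :=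
    int_bdd ((h.1.pow_const t).mul hgm) (C := 2) fun x => by
      rw [norm_mul]
      exact (mul_le_of_le_one_left (norm_nonneg _) (hpb x)).trans (hgb x)
  have h3 := integral_sub hi1 hi2
  rw [h2, sub_self] at h3
  have h4 : ∫ x, B.indicator (fun x => ((‖ψ x - θ x ^ t‖ ^ 2 : ℝ) : ℂ)) x ∂μ = 0 := by
    rw [← h3]
    congr 1
    ext x
    by_cases hx : x ∈ B
    · rw [indicator_of_mem hx, indicator_of_mem hx, ← sub_mul, Complex.mul_conj,
        Complex.normSq_eq_norm_sq]
    · rw [indicator_of_notMem hx, indicator_of_notMem hx, mul_zero, mul_zero, sub_zero]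
  rw [integral_indicator hB, integral_complex_ofReal] at h4
  have h5 : ∫ x in B, ‖ψ x - θ x ^ t‖ ^ 2 ∂μ = 0 := by exact_mod_cast h4
  have h6 := (integral_eq_zero_iff_of_nonneg (μ := μ.restrict B)
    (f := fun x => ‖ψ x - θ x ^ t‖ ^ 2) (fun x => by positivity)
    (sq_norm_int (hψ.1.sub (h.1.pow_const t)) hsb).restrict).1 h5
  have h7 := (ae_restrict_iff' hB).1 h6
  filter_upwards [h7] with x hx hxB
  have h8 : ‖ψ x - θ x ^ t‖ ^ 2 = 0 := hx hxB
  rw [← sub_eq_zero, ← norm_eq_zero]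
  exact (pow_eq_zero_iff two_ne_zero).1 h8

end Q123.CW
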